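import Pool.Agent.Lib.MP_6b2d39_agCr.Defs

open MvPolynomial

namespace Pool.Agent.Lib.MP_6b2d39_agCr

private theorem cv_degree {F : MvPolynomial (Fin 3) ℂ} {d : ℕ} (hF : F.IsHomogeneous d)
    {u : Fin 3 →₀ ℕ} (hu : u ∈ F.support) : ∑ s, u s = d := by
  by_contra h
  have h1 : u.degree ≠ d := by
    rw [Finsupp.degree_eq_sum]
    exact h
  exact (mem_support_iff.1 hu) (hF.coeff_eq_zero h1)

/-- the substitution `X t ↦ 1` -/
private noncomputable def cvPsi (t : Fin 3) : MvPolynomial (Fin 3) ℂ →ₐ[ℂ] MvPolynomial (Fin 3) ℂ :=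
  aeval (fun s => if s = t then 1 else X s)

private theorem cv_eval (t : Fin 3) (f : MvPolynomial (Fin 3) ℂ) :
    coeff 0 (cvPsi t f) = eval (Pi.single t 1 : Fin 3 → ℂ) f := by
  have h : (constantCoeff.comp (cvPsi t).toRingHom : MvPolynomial (Fin 3) ℂ →+* ℂ) =
      eval (Pi.single t 1 : Fin 3 → ℂ) := by
    apply MvPolynomial.ringHom_ext
    · intro r
      simp [cvPsi]
    · intro s
      by_cases hs : s = t
      · subst hs
        simp [cvPsi]
      · simp [cvPsi, hs]
  have h2 := RingHom.congr_fun h f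
  rw [← h2]
  rfl

private theorem cv_map (t : Fin 3) (n : ℕ) {F : MvPolynomial (Fin 3) ℂ}
    (hF : F ∈ (RingHom.ker (eval (Pi.single t 1 : Fin 3 → ℂ))) ^ n) :
    cvPsi t F ∈ idealOfVars (Fin 3) ℂ ^ n := by
  have h1 : Ideal.map (cvPsi t).toRingHom (RingHom.ker (eval (Pi.single t 1 : Fin 3 → ℂ))) ≤
      idealOfVars (Fin 3) ℂ := by
    rw [Ideal.map_le_iff_le_comap]
    intro f hf
    rw [Ideal.mem_comap]
    have h2 : eval (Pi.single t 1 : Fin 3 → ℂ) f = 0 := hf
    rw [← pow_one (idealOfVars (Fin 3) ℂ), mem_pow_idealOfVars_iff']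
    intro x hx
    have hx0 : x = 0 := by
      have : x.degree = 0 := by omega
      exact (Finsupp.degree_eq_zero_iff x).1 this
    rw [hx0]
    show coeff 0 (cvPsi t f) = 0
    rw [cv_eval, h2]
  have h3 := Ideal.mem_map_of_mem (cvPsi t).toRingHom hF
  rw [Ideal.map_pow] at h3
  exact Ideal.pow_right_mono h1 n h3

private theorem cv_psi_monomial (t : Fin 3) (u : Fin 3 →₀ ℕ) (c : ℂ) :
    cvPsi t (monomial u c) = monomial (u.erase t) c := by
  unfold cvPsi
  rw [aeval_monomial, monomial_eq, Finsupp.prod_fintype _ _ (fun i => pow_zero _),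
    Finsupp.prod_fintype _ _ (fun i => pow_zero _)]
  congr 1
  apply Finset.prod_congr rfl
  intro s _
  by_cases hs : s = t
  · subst hs
    simp
  · rw [if_neg hs, Finsupp.erase_ne hs]

/-- multiplicity of a form at a coordinate point -/
theorem van_single_iff {F : MvPolynomial (Fin 3) ℂ} {d : ℕ} (hF : F.IsHomogeneous d) (n : ℕ)
    (t : Fin 3) : Van n (Pi.single t 1) F ↔ ∀ u ∈ F.support, u t + n ≤ d := by
  classical
  constructor
  · intro hV u0 hu0
    have h1 := cv_map t n hV
    rw [mem_pow_idealOfVars_iff'] at h1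
    by_contra hlt
    push Not at hlt
    have hd0 := cv_degree hF hu0
    have hdeg : (u0.erase t).degree + u0 t = d := by
      rw [Finsupp.degree_eq_sum, ← hd0]
      rw [← Finset.sum_erase_add _ _ (Finset.mem_univ t),
        ← Finset.sum_erase_add _ _ (Finset.mem_univ t), Finsupp.erase_same, add_zero]
      congr 1
      apply Finset.sum_congr rfl
      intro s hs
      exact Finsupp.erase_ne (Finset.ne_of_mem_erase hs)
    have h2 := h1 (u0.erase t) (by omega)
    have h3 : coeff (u0.erase t) (cvPsi t F) = coeff u0 F := by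
      conv_lhs => rw [F.as_sum]
      rw [map_sum, coeff_sum]
      rw [Finset.sum_eq_single u0]
      · rw [cv_psi_monomial, coeff_monomial, if_pos rfl]
      · intro u hu hne
        rw [cv_psi_monomial, coeff_monomial, if_neg]
        intro heq
        apply hne
        have hs : ∀ s, s ≠ t → u s = u0 s := by
          intro s hs
          have h4 := DFunLike.congr_fun heq s
          rwa [Finsupp.erase_ne hs, Finsupp.erase_ne hs] at h4
        have hdu := cv_degree hF hu
        rw [← Finset.sum_erase_add _ _ (Finset.mem_univ t)] at hdu hd0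
        have h5 : ∑ s ∈ Finset.univ.erase t, u s = ∑ s ∈ Finset.univ.erase t, u0 s :=
          Finset.sum_congr rfl (fun s hs' => hs s (Finset.ne_of_mem_erase hs'))
        ext s
        by_cases hst : s = t
        · rw [hst]; omega
        · exact hs s hst
      · intro h
        exact absurd hu0 h
    rw [h3] at h2
    exact (mem_support_iff.1 hu0) h2
  · intro h
    unfold Van
    rw [F.as_sum]
    apply Ideal.sum_mem
    intro u hu
    have hd := cv_degree hF hu
    have hn := h u hu
    rw [monomial_eq, Finsupp.prod_fintype _ _ (fun i => pow_zero _),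
      ← Finset.prod_erase_mul _ _ (Finset.mem_univ t), ← mul_assoc]
    apply Ideal.mul_mem_right
    apply Ideal.mul_mem_left
    have h1 : ∏ s ∈ Finset.univ.erase t, (X s : MvPolynomial (Fin 3) ℂ) ^ u s ∈
        ∏ s ∈ Finset.univ.erase t, (RingHom.ker (eval (Pi.single t 1 : Fin 3 → ℂ))) ^ u s := by
      apply Ideal.prod_mem_prod
      intro s hs
      apply Ideal.pow_mem_pow
      rw [RingHom.mem_ker, eval_X]
      exact Pi.single_eq_of_ne (Finset.ne_of_mem_erase hs) 1
    rw [Finset.prod_pow_eq_pow_sum] at h1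
    refine Ideal.pow_le_pow_right ?_ h1
    rw [← Finset.sum_erase_add _ _ (Finset.mem_univ t)] at hd
    omega

/-- divisibility of a form by a coordinate -/
theorem X_dvd_iff_support {F : MvPolynomial (Fin 3) ℂ} (t : Fin 3) :
    X t ∣ F ↔ ∀ u ∈ F.support, 1 ≤ u t := by
  rw [← Ideal.mem_span_singleton, ← Set.image_singleton, mem_ideal_span_X_image]
  refine forall₂_congr fun u _ => ?_
  simp only [Set.mem_singleton_iff, exists_eq_left]
  exact Nat.one_le_iff_ne_zero.symm

end Pool.Agent.Lib.MP_6b2d39_agCr
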