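import Pool.Agent.Lib.MP_6b2d39_agCr.Defs

open MvPolynomial

namespace Pool.Agent.Lib.MP_6b2d39_agCr

variable {v : Fin 3 → ℂ} {F G : MvPolynomial (Fin 3) ℂ} {a b n d : ℕ}

theorem van_zero (v : Fin 3 → ℂ) (F : MvPolynomial (Fin 3) ℂ) : Van 0 v F := by
  simp [Van]

theorem van_anti (hab : a ≤ b) (h : Van b v F) : Van a v F :=
  Ideal.pow_le_pow_right hab h

theorem van_one_iff : Van 1 v F ↔ eval v F = 0 := by
  simp [Van, RingHom.mem_ker]

theorem van_mul (hF : Van a v F) (hG : Van b v G) : Van (a + b) v (F * G) := by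
  unfold Van at *
  rw [pow_add]
  exact Ideal.mul_mem_mul hF hG

theorem van_mul_left (hF : Van a v F) (G : MvPolynomial (Fin 3) ℂ) : Van a v (G * F) :=
  Ideal.mul_mem_left _ G hF

theorem van_pow (hF : Van a v F) (k : ℕ) : Van (k * a) v (F ^ k) := by
  induction k with
  | zero => rw [Nat.zero_mul]; exact van_zero _ _
  | succ k ih =>
    rw [Nat.succ_mul, pow_succ]
    exact van_mul ih hF

theorem van_prod {κ : Type} [Fintype κ] (N μ : κ → ℕ) (H : κ → MvPolynomial (Fin 3) ℂ)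
    (hH : ∀ j, Van (μ j) v (H j)) : Van (∑ j, N j * μ j) v (∏ j, H j ^ N j) := by
  classical
  have key : ∀ s : Finset κ, Van (∑ j ∈ s, N j * μ j) v (∏ j ∈ s, H j ^ N j) := by
    intro s
    induction s using Finset.induction_on with
    | empty => rw [Finset.sum_empty]; exact van_zero _ _
    | insert j s hj ih =>
      rw [Finset.sum_insert hj, Finset.prod_insert hj]
      exact van_mul (van_pow (hH j) (N j)) ih
  exact key Finset.univ

/-- pull-back under a polynomial map -/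
theorem van_comp (φ : Fin 3 → MvPolynomial (Fin 3) ℂ) (h : Van n (fun i => eval v (φ i)) F) :
    Van n v (aeval φ F) := by
  unfold Van at *
  have h1 : Ideal.map (aeval φ : MvPolynomial (Fin 3) ℂ →ₐ[ℂ] MvPolynomial (Fin 3) ℂ)
      (RingHom.ker (eval (fun i => eval v (φ i)))) ≤ RingHom.ker (eval v) := by
    rw [Ideal.map_le_iff_le_comap]
    intro p hp
    rw [Ideal.mem_comap, RingHom.mem_ker]
    rw [RingHom.mem_ker] at hp
    have h2 : eval v (aeval φ p) = eval (fun i => eval v (φ i)) p := by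
      have h3 : (eval v).comp (aeval φ : MvPolynomial (Fin 3) ℂ →ₐ[ℂ] MvPolynomial (Fin 3) ℂ).toRingHom
          = eval (fun i => eval v (φ i)) := by
        apply MvPolynomial.ringHom_ext
        · intro r
          simp
        · intro i
          simp
      have h4 := congrArg (fun f => f p) h3
      simpa using h4
    rw [h2]
    exact hp
  have h5 : aeval φ F ∈ Ideal.map (aeval φ : MvPolynomial (Fin 3) ℂ →ₐ[ℂ] MvPolynomial (Fin 3) ℂ)
      ((RingHom.ker (eval (fun i => eval v (φ i)))) ^ n) := Ideal.mem_map_of_mem _ h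
  rw [Ideal.map_pow] at h5
  exact Ideal.pow_right_mono h1 n h5

/-- a factor not vanishing at the point can be cancelled -/
theorem van_cancel (hG : eval v G ≠ 0) (h : Van n v (G * F)) : Van n v F := by
  unfold Van at *
  have hc : (1 - C ((eval v G)⁻¹) * G : MvPolynomial (Fin 3) ℂ) ∈ RingHom.ker (eval v) := by
    rw [RingHom.mem_ker]
    simp [hG]
  have hcn := Ideal.pow_mem_pow hc n
  obtain ⟨w, hw⟩ : (1 - (1 - C ((eval v G)⁻¹) * G) : MvPolynomial (Fin 3) ℂ) ∣
      1 - (1 - C ((eval v G)⁻¹) * G) ^ n := by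
    have := sub_dvd_pow_sub_pow (1 : MvPolynomial (Fin 3) ℂ) (1 - C ((eval v G)⁻¹) * G) n
    simpa using this
  have hF : F = F * (1 - C ((eval v G)⁻¹) * G) ^ n + (C ((eval v G)⁻¹) * w) * (G * F) := by
    have h1 : (1 : MvPolynomial (Fin 3) ℂ) = (1 - C ((eval v G)⁻¹) * G) ^ n
        + (1 - (1 - C ((eval v G)⁻¹) * G)) * w := by
      rw [← hw]; ring
    calc F = F * 1 := by ring
      _ = F * ((1 - C ((eval v G)⁻¹) * G) ^ n
        + (1 - (1 - C ((eval v G)⁻¹) * G)) * w) := by rw [← h1]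
      _ = _ := by ring
  rw [hF]
  exact Ideal.add_mem _ (Ideal.mul_mem_left _ _ hcn) (Ideal.mul_mem_left _ _ h)

private theorem Ord_scale (hF : F.IsHomogeneous d) (c : ℂ) :
    aeval (fun i => (C c * X i : MvPolynomial (Fin 3) ℂ)) F = C (c ^ d) * F := by
  classical
  rw [MvPolynomial.aeval_def, MvPolynomial.eval₂_eq]
  conv_rhs => rw [MvPolynomial.as_sum F, Finset.mul_sum]
  refine Finset.sum_congr rfl (fun u hu => ?_)
  have hu' : u.degree = d := by
    have := hF (MvPolynomial.mem_support_iff.mp hu)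
    rw [← this, Finsupp.degree_eq_weight_one]
    rfl
  rw [MvPolynomial.monomial_eq, Finsupp.prod]
  simp only [mul_pow, Finset.prod_mul_distrib, MvPolynomial.algebraMap_eq]
  have h2 : ∏ x ∈ u.support, (C c : MvPolynomial (Fin 3) ℂ) ^ u x = C (c ^ d) := by
    rw [Finset.prod_pow_eq_pow_sum, ← Finsupp.degree_apply, hu', map_pow]
  rw [h2]
  ring

private theorem Ord_smul_aux (hF : F.IsHomogeneous d) {c : ℂ} (hc : c ≠ 0)
    (h : Van n (c • v) F) : Van n v F := by
  have h1 : Van n v (aeval (fun i => (C c * X i : MvPolynomial (Fin 3) ℂ)) F) := by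
    apply van_comp
    have h2 : (fun i => eval v (C c * X i : MvPolynomial (Fin 3) ℂ)) = c • v := by
      funext i
      simp
    rw [h2]
    exact h
  rw [Ord_scale hF c] at h1
  exact van_cancel (by simp [hc]) h1

theorem van_smul (hF : F.IsHomogeneous d) {c : ℂ} (hc : c ≠ 0) : Van n (c • v) F ↔ Van n v F := by
  constructor
  · exact Ord_smul_aux hF hc
  · intro h
    apply Ord_smul_aux hF (inv_ne_zero hc)
    rwa [smul_smul, inv_mul_cancel₀ hc, one_smul]

theorem mem_curves {h : ℕ} {m : Fin h → ℕ} {P : Fin h → Fin 3 → ℂ} :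
    F ∈ curves d m P ↔ F.IsHomogeneous d ∧ ∀ i, Van (m i) (P i) F := by
  unfold curves Van
  rw [Submodule.mem_inf, mem_homogeneousSubmodule, Submodule.mem_iInf]
  simp only [Submodule.restrictScalars_mem]

theorem curves_smul {h : ℕ} {m : Fin h → ℕ} {P : Fin h → Fin 3 → ℂ} {c : Fin h → ℂ}
    (hc : ∀ l, c l ≠ 0) : curves d m (fun l => c l • P l) = curves d m P := by
  ext F
  rw [mem_curves, mem_curves]
  constructor
  · rintro ⟨h1, h2⟩
    exact ⟨h1, fun i => (van_smul h1 (hc i)).mp (h2 i)⟩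
  · rintro ⟨h1, h2⟩
    exact ⟨h1, fun i => (van_smul h1 (hc i)).mpr (h2 i)⟩

theorem curve_smul {h : ℕ} {δ : ℕ} {μ : Fin h → ℕ} {P : Fin h → Fin 3 → ℂ} {c : Fin h → ℂ}
    (hc : ∀ l, c l ≠ 0) :
    IsMinusOneCurve (fun l => c l • P l) δ μ F ↔ IsMinusOneCurve P δ μ F := by
  constructor
  · rintro ⟨h1, h2, h3, h4, h5⟩
    refine ⟨h1, h2, fun i => ⟨(van_smul h2 (hc i)).mp (h3 i).1, fun h6 => (h3 i).2 ?_⟩, h4, h5⟩
    exact (van_smul h2 (hc i)).mpr h6
  · rintro ⟨h1, h2, h3, h4, h5⟩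
    refine ⟨h1, h2, fun i => ⟨(van_smul h2 (hc i)).mpr (h3 i).1, fun h6 => (h3 i).2 ?_⟩, h4, h5⟩
    exact (van_smul h2 (hc i)).mp h6

end Pool.Agent.Lib.MP_6b2d39_agCr
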