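import Pool.Agent.Lib.MP_6b2d39_agCr.Gen
import Pool.Agent.Lib.MP_6b2d39_agCr.Ord
import Pool.Agent.Lib.MP_6b2d39_ag.Transfer

open MvPolynomial

namespace Pool.Agent.Lib.MP_6b2d39_agCr

private noncomputable def trl (v : Fin 3 → ℂ) : MvPolynomial (Fin 3) ℂ →ₐ[ℂ] MvPolynomial (Fin 3) ℂ :=
  aeval (fun i => X i + C (v i))

private noncomputable def trl' (v : Fin 3 → ℂ) :
    MvPolynomial (Fin 3) ℂ →ₐ[ℂ] MvPolynomial (Fin 3) ℂ :=
  aeval (fun i => X i - C (v i))

private lemma trl'_trl (v : Fin 3 → ℂ) (F : MvPolynomial (Fin 3) ℂ) : trl' v (trl v F) = F := by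
  have h : (trl' v).comp (trl v) = AlgHom.id ℂ _ := by
    apply MvPolynomial.algHom_ext
    intro i
    simp [trl, trl']
  exact DFunLike.congr_fun h F

private lemma eval_zero_trl (v : Fin 3 → ℂ) (F : MvPolynomial (Fin 3) ℂ) :
    eval 0 (trl v F) = eval v F := by
  have h : (eval (0 : Fin 3 → ℂ)).comp (trl v : MvPolynomial (Fin 3) ℂ →+* _) = eval v := by
    apply MvPolynomial.ringHom_ext
    · intro r
      simp [trl]
    · intro i
      simp [trl]
  exact DFunLike.congr_fun h F

private lemma ker_eval_zero : RingHom.ker (eval (0 : Fin 3 → ℂ)) = idealOfVars (Fin 3) ℂ := by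
  ext F
  rw [RingHom.mem_ker, ← pow_one (idealOfVars (Fin 3) ℂ), mem_pow_idealOfVars_iff', eval_zero]
  constructor
  · intro h x hx
    have : x = 0 := by
      rw [← Finsupp.degree_eq_zero_iff]
      omega
    rw [this]
    exact h
  · intro h
    exact h 0 (by simp)

private lemma mem_ker_pow_iff (n : ℕ) (v : Fin 3 → ℂ) (F : MvPolynomial (Fin 3) ℂ) :
    F ∈ (RingHom.ker (eval v)) ^ n ↔ ∀ α : Fin 3 →₀ ℕ, α.degree < n → coeff α (trl v F) = 0 := by
  rw [← mem_pow_idealOfVars_iff']
  constructor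
  · intro h
    have h1 : Ideal.map (trl v : MvPolynomial (Fin 3) ℂ →+* _) (RingHom.ker (eval v)) ≤
        idealOfVars (Fin 3) ℂ := by
      rw [Ideal.map_le_iff_le_comap, ← ker_eval_zero]
      intro G hG
      rw [Ideal.mem_comap, RingHom.mem_ker]
      exact (eval_zero_trl v G).trans hG
    have h2 : trl v F ∈ Ideal.map (trl v : MvPolynomial (Fin 3) ℂ →+* _)
        ((RingHom.ker (eval v)) ^ n) := Ideal.mem_map_of_mem _ h
    rw [Ideal.map_pow] at h2
    exact Ideal.pow_right_mono h1 n h2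
  · intro h
    have h1 : Ideal.map (trl' v : MvPolynomial (Fin 3) ℂ →+* _) (idealOfVars (Fin 3) ℂ) ≤
        RingHom.ker (eval v) := by
      rw [Ideal.map_le_iff_le_comap, idealOfVars, Ideal.span_le]
      rintro _ ⟨i, rfl⟩
      show (trl' v) (X i) ∈ RingHom.ker (eval v)
      rw [RingHom.mem_ker]
      simp [trl']
    have h2 : trl' v (trl v F) ∈ Ideal.map (trl' v : MvPolynomial (Fin 3) ℂ →+* _)
        ((idealOfVars (Fin 3) ℂ) ^ n) := Ideal.mem_map_of_mem _ h
    rw [Ideal.map_pow, trl'_trl] at h2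
    exact Ideal.pow_right_mono h1 n h2

/-- the universal coefficient -/
private noncomputable def EE (α u : Fin 3 →₀ ℕ) : MvPolynomial (Fin 3) ℂ :=
  coeff α (∏ i, ((X i : MvPolynomial (Fin 3) (MvPolynomial (Fin 3) ℂ)) + C (X i)) ^ u i)

private lemma eval_EE (v : Fin 3 → ℂ) (α u : Fin 3 →₀ ℕ) :
    eval v (EE α u) = coeff α (∏ i, ((X i : MvPolynomial (Fin 3) ℂ) + C (v i)) ^ u i) := by
  rw [EE, ← coeff_map]
  congr 1
  simp [map_prod]

private lemma coeff_trl (v : Fin 3 → ℂ) (F : MvPolynomial (Fin 3) ℂ) (α : Fin 3 →₀ ℕ) :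
    coeff α (trl v F) = ∑ u ∈ F.support, eval v (EE α u) * coeff u F := by
  rw [trl, aeval_def, eval₂_eq', coeff_sum]
  apply Finset.sum_congr rfl
  intro u _
  rw [algebraMap_eq, coeff_C_mul, eval_EE, mul_comm]

/-- vanishing to order `n` at `v` is given by equations with polynomial coefficients in `v` -/
theorem exists_van_eqs (n d : ℕ) :
    ∃ (J : Type) (_ : Fintype J) (E : J → (Fin 3 →₀ ℕ) → MvPolynomial (Fin 3) ℂ),
      ∀ (v : Fin 3 → ℂ) (F : MvPolynomial (Fin 3) ℂ), F.IsHomogeneous d →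
        (Van n v F ↔ ∀ j, ∑ u ∈ F.support, eval v (E j u) * coeff u F = 0) := by
  have hfin : {α : Fin 3 →₀ ℕ | α.degree < n}.Finite := by
    apply (Finset.finite_toSet (Finset.Iic (Finsupp.equivFunOnFinite.symm (fun _ : Fin 3 => n)))).subset
    intro α hα
    rw [Finset.mem_coe, Finset.mem_Iic]
    intro i
    have h1 : α i ≤ α.degree := Finsupp.le_degree i α
    have h2 : α.degree < n := hα
    show α i ≤ n
    omega
  refine ⟨{α : Fin 3 →₀ ℕ | α.degree < n}, hfin.fintype, fun j u => EE j.1 u, ?_⟩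
  intro v F _
  rw [Van, mem_ker_pow_iff]
  constructor
  · intro h j
    rw [← coeff_trl]
    exact h j.1 j.2
  · intro h α hα
    rw [coeff_trl]
    exact h ⟨α, hα⟩

/-- semicontinuity of the dimension -/
theorem general_finrank_le {h : ℕ} (d : ℕ) (m : Fin h → ℕ) (P₀ : Fin h → Fin 3 → ℂ) :
    General (fun P => Module.finrank ℂ (curves d m P) ≤ Module.finrank ℂ (curves d m P₀)) := by
  classical
  choose J hJ E hE using fun n => exists_van_eqs n d
  -- exponents of degree `d`
  let S : Finset (Fin 3 →₀ ℕ) := Finset.finsuppAntidiag Finset.univ d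
  have hS : ∀ u, u ∈ S ↔ u.degree = d := by
    intro u
    simp only [S, Finset.mem_finsuppAntidiag, Finset.subset_univ, and_true, Finsupp.degree_eq_sum]
  have hsupp : ∀ F : MvPolynomial (Fin 3) ℂ, F.IsHomogeneous d → F.support ⊆ S := by
    intro F hF u hu
    rw [hS]
    have := hF (mem_support_iff.1 hu)
    rw [← this, Finsupp.degree_eq_weight_one]
    rfl
  let co : MvPolynomial (Fin 3) ℂ →ₗ[ℂ] (S → ℂ) := LinearMap.pi fun u => lcoeff ℂ u.1
  have hco : ∀ F u, co F u = coeff u.1 F := fun F u => rfl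
  have hco0 : ∀ F : MvPolynomial (Fin 3) ℂ, F.IsHomogeneous d → co F = 0 → F = 0 := by
    intro F hF h0
    ext u
    rw [coeff_zero]
    by_contra hu
    have h1 := hsupp F hF (mem_support_iff.2 hu)
    exact hu (congrFun h0 ⟨u, h1⟩)
  let po : (S → ℂ) → MvPolynomial (Fin 3) ℂ := fun c => ∑ u : S, monomial u.1 (c u)
  have hpo : ∀ c, (po c).IsHomogeneous d := by
    intro c
    apply IsHomogeneous.sum
    intro u _
    apply isHomogeneous_monomial
    exact (hS u.1).1 u.2
  have hcopo : ∀ c, co (po c) = c := by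
    intro c
    funext u
    rw [hco, coeff_sum, Finset.sum_eq_single u]
    · rw [coeff_monomial, if_pos rfl]
    · intro w _ hw
      rw [coeff_monomial, if_neg (fun h0 => hw (Subtype.ext h0))]
    · intro h0
      exact absurd (Finset.mem_univ u) h0
  have hsum : ∀ (F : MvPolynomial (Fin 3) ℂ), F.IsHomogeneous d → ∀ g : (Fin 3 →₀ ℕ) → ℂ,
      ∑ u ∈ F.support, g u * coeff u F = ∑ u : S, g u.1 * co F u := by
    intro F hF g
    rw [Finset.sum_subset (hsupp F hF), ← Finset.sum_coe_sort S]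
    · rfl
    · intro u _ hu
      rw [notMem_support_iff.1 hu, mul_zero]
  -- the system at `P₀`
  let W := LinearMap.range (co.domRestrict (curves d m P₀))
  have hWinj : Function.Injective (co.domRestrict (curves d m P₀)) := by
    rw [← LinearMap.ker_eq_bot, LinearMap.ker_eq_bot']
    intro F hF
    exact Subtype.ext (hco0 F.1 (mem_curves.1 F.2).1 hF)
  have hWr : Module.finrank ℂ W = Module.finrank ℂ (curves d m P₀) :=
    LinearMap.finrank_range_of_inj hWinj
  obtain ⟨π, hπ⟩ := LinearMap.exists_leftInverse_of_injective W.subtype W.ker_subtype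
  have hπ' : ∀ w (hw : w ∈ W), π w = ⟨w, hw⟩ := fun w hw => DFunLike.congr_fun hπ ⟨w, hw⟩
  let b := Module.finBasis ℂ W
  let φ : Fin (Module.finrank ℂ W) → (S → ℂ) →ₗ[ℂ] ℂ := fun k => (b.coord k).comp π
  have hφ0 : ∀ w ∈ W, (∀ k, φ k w = 0) → w = 0 := by
    intro w hw h0
    have h1 : b.repr ⟨w, hw⟩ = 0 := by
      ext k
      have := h0 k
      simp only [φ, LinearMap.comp_apply, hπ' w hw, Module.Basis.coord_apply] at this
      rw [this]
      rfl
    have h2 : (⟨w, hw⟩ : W) = 0 := by simpa using h1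
    exact congrArg Subtype.val h2
  have hφs : ∀ k w, φ k w = ∑ u : S, φ k (fun j => if u = j then 1 else 0) * w u := by
    intro k w
    rw [LinearMap.pi_apply_eq_sum_univ (φ k) w]
    apply Finset.sum_congr rfl
    intro u _
    rw [smul_eq_mul, mul_comm]
  -- the universal matrix
  let rowU : ((Σ i : Fin h, J (m i)) ⊕ Fin (Module.finrank ℂ W)) → S →
      MvPolynomial (Fin h × Fin 3) ℂ := fun r u =>
    Sum.elim (fun q => rename (fun t => (q.1, t)) (E (m q.1) q.2 u.1))
      (fun k => C (φ k (fun j => if u = j then 1 else 0))) r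
  let ev : (Fin h → Fin 3 → ℂ) → MvPolynomial (Fin h × Fin 3) ℂ →+* ℂ :=
    fun P => eval (fun q => P q.1 q.2)
  have hev1 : ∀ P (q : Σ i : Fin h, J (m i)) (u : S), ev P (rowU (Sum.inl q) u) =
      eval (P q.1) (E (m q.1) q.2 u.1) := by
    intro P q u
    simp only [ev, rowU, Sum.elim_inl]
    rw [eval_rename]
    rfl
  have hev2 : ∀ P k (u : S), ev P (rowU (Sum.inr k) u) =
      φ k (fun j => if u = j then 1 else 0) := by
    intro P k u
    simp only [ev, rowU, Sum.elim_inr, eval_C]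
  obtain ⟨a, ha⟩ := MP_6b2d39_ag.Transfer.exists_minor (K := ℂ) (fun r u => ev P₀ (rowU r u)) (by
    intro c hc
    have h1 : po c ∈ curves d m P₀ := by
      rw [mem_curves]
      refine ⟨hpo c, fun i => ?_⟩
      rw [hE _ _ _ (hpo c)]
      intro j
      rw [hsum _ (hpo c) (fun u => eval (P₀ i) (E (m i) j u)), hcopo]
      have := hc (Sum.inl ⟨i, j⟩)
      simpa only [hev1] using this
    have h2 : c ∈ W := ⟨⟨po c, h1⟩, hcopo c⟩
    apply hφ0 c h2
    intro k
    rw [hφs]
    have := hc (Sum.inr k)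
    simpa only [hev2] using this)
  refine ⟨(Matrix.of fun i i' => rowU (a i) i').det, ?_, ?_⟩
  · intro h0
    apply ha
    have h1 := RingHom.map_det (ev P₀) (Matrix.of fun i i' => rowU (a i) i')
    rw [h0, map_zero] at h1
    rw [h1]
    rfl
  · intro P hP
    rw [← hWr]
    have hP' : (Matrix.of fun i i' => ev P (rowU (a i) i')).det ≠ 0 := by
      intro h0
      apply hP
      have h1 := RingHom.map_det (ev P) (Matrix.of fun i i' => rowU (a i) i')
      rw [show eval (fun q : Fin h × Fin 3 => P q.1 q.2) = ev P from rfl, h1]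
      exact h0
    let ψ : curves d m P →ₗ[ℂ] (Fin (Module.finrank ℂ W) → ℂ) :=
      (LinearMap.pi φ).comp (co.domRestrict (curves d m P))
    have hψ : Function.Injective ψ := by
      rw [← LinearMap.ker_eq_bot, LinearMap.ker_eq_bot']
      intro F hF
      have hF1 := mem_curves.1 F.2
      apply Subtype.ext
      apply hco0 F.1 hF1.1
      apply MP_6b2d39_ag.Transfer.eq_zero_of_minor (K := ℂ) (fun r u => ev P (rowU r u)) a hP'
      rintro (⟨i, j⟩ | k)
      · simp only [hev1]
        rw [← hsum _ hF1.1 (fun u => eval (P i) (E (m i) j u))]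
        exact (hE _ _ _ hF1.1).1 (hF1.2 i) j
      · simp only [hev2]
        rw [← hφs]
        exact congrFun hF k
    have := LinearMap.finrank_le_finrank_of_injective hψ
    rwa [Module.finrank_fin_fun] at this

end Pool.Agent.Lib.MP_6b2d39_agCr
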