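import Pool.Agent.Lib.MP_6b2d39_agCr.Affine
import Pool.Agent.Lib.MP_6b2d39_agCr.Semi
import Pool.Agent.Lib.MP_6b2d39_ag.LowerBound

open MvPolynomial

namespace Pool.Agent.Lib.MP_6b2d39_agCr

theorem vd_le_finrank {h : ℕ} (d : ℕ) (m : Fin h → ℕ) {P : Fin h → Fin 3 → ℂ}
    (hP : ∀ l, P l 2 ≠ 0) : vd d m ≤ (Module.finrank ℂ (curves d m P) : ℤ) := by
  set p : Fin h → Fin 2 → ℂ := fun l => ![P l 0 / P l 2, P l 1 / P l 2] with hp
  have h1 : P = fun l => P l 2 • ![p l 0, p l 1, 1] := by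
    funext l i
    have h2 := hP l
    fin_cases i
    · simp [hp]; field_simp
    · simp [hp]; field_simp
    · simp
  have h2 : curves d m P = curves d m (fun i => ![p i 0, p i 1, 1]) := by
    rw [h1]
    exact curves_smul hP
  rw [h2, finrank_curves_affine]
  have h3 := MP_6b2d39_ag.lower_bound (d := d) m p
  unfold vd
  have h4 : (((d + 2).choose 2 : ℕ) : ℤ) ≤
      (Module.finrank ℂ (MP_6b2d39_ag.fatSystem d m p) : ℤ) + ∑ i, (((m i + 1).choose 2 : ℕ) : ℤ) := by
    exact_mod_cast h3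
  linarith

/-- one configuration without excess suffices -/
theorem general_nonspecial_of_le {h : ℕ} {d : ℕ} {m : Fin h → ℕ} (P₀ : Fin h → Fin 3 → ℂ)
    (h0 : (Module.finrank ℂ (curves d m P₀) : ℤ) ≤ max (vd d m) 0) :
    General (fun P => (Module.finrank ℂ (curves d m P) : ℤ) = max (vd d m) 0) := by
  refine ((general_finrank_le d m P₀).and (general_coord_ne 2)).mono ?_
  rintro P ⟨h1, h2⟩
  apply le_antisymm
  · refine le_trans ?_ h0
    exact_mod_cast h1
  · exact max_le (vd_le_finrank d m h2) (Int.natCast_nonneg _)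

/-- transfer of a nonspeciality theorem in the affine chart -/
theorem general_nonspecial_of_affine {h : ℕ} {d : ℕ} {m : Fin h → ℕ}
    (H : ∃ Φ : MvPolynomial (Fin h × Fin 2) ℂ, Φ ≠ 0 ∧ ∀ p : Fin h → Fin 2 → ℂ,
      eval (fun q => p q.1 q.2) Φ ≠ 0 →
        (Module.finrank ℂ (MP_6b2d39_ag.fatSystem d m p) : ℤ) =
          max (((d + 2).choose 2 : ℤ) - ∑ i, ((m i + 1).choose 2 : ℤ)) 0) :
    General (fun P => (Module.finrank ℂ (curves d m P) : ℤ) = max (vd d m) 0) := by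
  obtain ⟨Φ, hΦ, H⟩ := H
  have h1 : ∃ x : Fin h × Fin 2 → ℂ, eval x Φ ≠ 0 := by
    by_contra hcon
    push Not at hcon
    apply hΦ
    apply MvPolynomial.funext
    intro x
    rw [hcon x, map_zero]
  obtain ⟨x, hx⟩ := h1
  have h2 := H (fun i j => x (i, j)) hx
  apply general_nonspecial_of_le (fun i => ![x (i, 0), x (i, 1), 1])
  have h3 := finrank_curves_affine d m (fun i j => x (i, j))
  rw [h3, h2]
  exact le_rfl

end Pool.Agent.Lib.MP_6b2d39_agCr
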