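import Pool.Agent.Lib.MP_6b2d39_agCr.Ord
import Pool.Agent.Lib.MP_6b2d39_ag.FatSystem

open MvPolynomial

namespace Pool.Agent.Lib.MP_6b2d39_agCr

/-- setting the last variable equal to `1` -/
noncomputable def deh : MvPolynomial (Fin 3) ℂ →ₐ[ℂ] MvPolynomial (Fin 2) ℂ :=
  aeval ![X 0, X 1, 1]

/-- the first two exponents -/
private noncomputable def pr (u : Fin 3 →₀ ℕ) : Fin 2 →₀ ℕ :=
  Finsupp.single 0 (u 0) + Finsupp.single 1 (u 1)

private lemma pr_zero (u : Fin 3 →₀ ℕ) : pr u 0 = u 0 := by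
  simp [pr]

private lemma pr_one (u : Fin 3 →₀ ℕ) : pr u 1 = u 1 := by
  simp [pr]

private lemma deh_monomial (u : Fin 3 →₀ ℕ) (c : ℂ) : deh (monomial u c) = monomial (pr u) c := by
  rw [deh, aeval_monomial, Finsupp.prod_fintype _ _ (fun i => pow_zero _), Fin.prod_univ_three,
    pr, algebraMap_eq]
  have h1 : (monomial (Finsupp.single (0 : Fin 2) (u 0) + Finsupp.single 1 (u 1)) c :
      MvPolynomial (Fin 2) ℂ) = C c * (X 0 ^ u 0 * X 1 ^ u 1) := by
    rw [X_pow_eq_monomial, X_pow_eq_monomial, monomial_mul, C_mul_monomial, one_mul, mul_one]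
  rw [h1]
  simp

private lemma pr_inj {d : ℕ} {u w : Fin 3 →₀ ℕ} (hu : u.degree = d) (hw : w.degree = d)
    (h : pr u = pr w) : u = w := by
  have h0 : u 0 = w 0 := by rw [← pr_zero, h, pr_zero]
  have h1 : u 1 = w 1 := by rw [← pr_one, h, pr_one]
  rw [Finsupp.degree_eq_sum, Fin.sum_univ_three] at hu hw
  ext i
  fin_cases i
  · exact h0
  · exact h1
  · show u 2 = w 2
    omega

private lemma deh_eq_sum (F : MvPolynomial (Fin 3) ℂ) :
    deh F = ∑ u ∈ F.support, monomial (pr u) (coeff u F) := by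
  conv_lhs => rw [F.as_sum, map_sum]
  apply Finset.sum_congr rfl
  intro u _
  rw [deh_monomial]

private lemma hom_degree {d : ℕ} {F : MvPolynomial (Fin 3) ℂ} (hF : F.IsHomogeneous d)
    {u : Fin 3 →₀ ℕ} (hu : coeff u F ≠ 0) : u.degree = d := by
  rw [← hF hu, Finsupp.degree_eq_weight_one]
  rfl

private lemma coeff_deh {d : ℕ} {F : MvPolynomial (Fin 3) ℂ} (hF : F.IsHomogeneous d)
    {u : Fin 3 →₀ ℕ} (hu : u.degree = d) : coeff (pr u) (deh F) = coeff u F := by
  classical
  rw [deh_eq_sum, coeff_sum]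
  by_cases h : u ∈ F.support
  · rw [Finset.sum_eq_single_of_mem u h, coeff_monomial, if_pos rfl]
    intro w hw hne
    rw [coeff_monomial, if_neg]
    intro h1
    exact hne (pr_inj (hom_degree hF (mem_support_iff.1 hw)) hu h1)
  · rw [notMem_support_iff.1 h]
    apply Finset.sum_eq_zero
    intro w hw
    rw [coeff_monomial, if_neg]
    intro h1
    apply h
    rw [← pr_inj (hom_degree hF (mem_support_iff.1 hw)) hu h1]
    exact hw

theorem deh_injOn {d : ℕ} {F G : MvPolynomial (Fin 3) ℂ} (hF : F.IsHomogeneous d)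
    (hG : G.IsHomogeneous d) (h : deh F = deh G) : F = G := by
  ext u
  by_cases hu : u.degree = d
  · rw [← coeff_deh hF hu, h, coeff_deh hG hu]
  · have h1 : coeff u F = 0 := by
      by_contra h0
      exact hu (hom_degree hF h0)
    have h2 : coeff u G = 0 := by
      by_contra h0
      exact hu (hom_degree hG h0)
    rw [h1, h2]

theorem exists_hom {d : ℕ} {f : MvPolynomial (Fin 2) ℂ} (hf : f.totalDegree ≤ d) :
    ∃ F : MvPolynomial (Fin 3) ℂ, F.IsHomogeneous d ∧ deh F = f := by
  let li : (Fin 2 →₀ ℕ) → (Fin 3 →₀ ℕ) := fun w =>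
    Finsupp.equivFunOnFinite.symm ![w 0, w 1, d - w 0 - w 1]
  have hpr : ∀ w, pr (li w) = w := by
    intro w
    ext i
    fin_cases i
    · exact pr_zero _
    · exact pr_one _
  refine ⟨∑ w ∈ f.support, monomial (li w) (coeff w f), ?_, ?_⟩
  · apply IsHomogeneous.sum
    intro w hw
    apply isHomogeneous_monomial
    have h1 : w 0 + w 1 ≤ d := by
      have := (le_totalDegree hw).trans hf
      rw [Finsupp.sum_fintype _ _ (fun _ => rfl), Fin.sum_univ_two] at this
      exact this
    rw [Finsupp.degree_eq_sum, Fin.sum_univ_three]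
    show w 0 + w 1 + (d - w 0 - w 1) = d
    omega
  · rw [map_sum]
    conv_rhs => rw [f.as_sum]
    apply Finset.sum_congr rfl
    intro w _
    rw [deh_monomial, hpr]

private lemma eval_deh (p : Fin 2 → ℂ) (F : MvPolynomial (Fin 3) ℂ) :
    eval p (deh F) = eval ![p 0, p 1, 1] F := by
  have h : (eval p).comp (deh : MvPolynomial (Fin 3) ℂ →+* _) = eval ![p 0, p 1, 1] := by
    apply MvPolynomial.ringHom_ext
    · intro r
      simp [deh]
    · intro i
      fin_cases i <;> simp [deh]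
  exact DFunLike.congr_fun h F

private lemma aeval_homog {d : ℕ} {F : MvPolynomial (Fin 3) ℂ} (hF : F.IsHomogeneous d)
    (T : MvPolynomial (Fin 3) ℂ) (g : Fin 3 → MvPolynomial (Fin 3) ℂ) :
    aeval (fun i => T * g i) F = T ^ d * aeval g F := by
  rw [aeval_def, aeval_def, eval₂_eq', eval₂_eq', Finset.mul_sum]
  apply Finset.sum_congr rfl
  intro u hu
  have h1 : ∑ i, u i = d := by
    rw [← Finsupp.degree_eq_sum]
    exact hom_degree hF (mem_support_iff.1 hu)
  simp only [mul_pow]
  rw [Finset.prod_mul_distrib, Finset.prod_pow_eq_pow_sum, h1]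
  ring

private lemma aeval_sub_mem (I : Ideal (MvPolynomial (Fin 3) ℂ))
    (f g : Fin 3 → MvPolynomial (Fin 3) ℂ) (h : ∀ i, f i - g i ∈ I) (F : MvPolynomial (Fin 3) ℂ) :
    aeval f F - aeval g F ∈ I := by
  rw [← Ideal.Quotient.eq]
  have h1 : (Ideal.Quotient.mk I).comp (aeval f : MvPolynomial (Fin 3) ℂ →ₐ[ℂ] _).toRingHom =
      (Ideal.Quotient.mk I).comp (aeval g : MvPolynomial (Fin 3) ℂ →ₐ[ℂ] _).toRingHom := by
    apply MvPolynomial.ringHom_ext
    · intro r
      simp
    · intro i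
      simp only [RingHom.comp_apply, AlgHom.toRingHom_eq_coe, RingHom.coe_coe, aeval_X]
      exact Ideal.Quotient.eq.2 (h i)
  exact DFunLike.congr_fun h1 F

theorem van_deh_iff {d : ℕ} {F : MvPolynomial (Fin 3) ℂ} (hF : F.IsHomogeneous d) (n : ℕ)
    (p : Fin 2 → ℂ) :
    Van n ![p 0, p 1, 1] F ↔ deh F ∈ (RingHom.ker (eval p)) ^ n := by
  constructor
  · intro h
    have h1 : Ideal.map (deh : MvPolynomial (Fin 3) ℂ →+* _)
        (RingHom.ker (eval ![p 0, p 1, 1])) ≤ RingHom.ker (eval p) := by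
      rw [Ideal.map_le_iff_le_comap]
      intro G hG
      rw [Ideal.mem_comap, RingHom.mem_ker]
      exact (eval_deh p G).trans hG
    have h2 : deh F ∈ Ideal.map (deh : MvPolynomial (Fin 3) ℂ →+* _)
        ((RingHom.ker (eval ![p 0, p 1, 1])) ^ n) := Ideal.mem_map_of_mem _ h
    rw [Ideal.map_pow] at h2
    exact Ideal.pow_right_mono h1 n h2
  · intro h
    set v : Fin 3 → ℂ := ![p 0, p 1, 1] with hv
    set c : MvPolynomial (Fin 3) ℂ := 1 - X 2 with hc
    set I : MvPolynomial (Fin 3) ℂ := ∑ k ∈ Finset.range (n + 1), c ^ k with hI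
    have hcv : eval v c = 0 := by simp [hc, hv]
    have hIv : eval v I = 1 := by
      rw [hI, map_sum, Finset.sum_eq_single_of_mem 0 (by simp)]
      · simp
      · intro k _ hk
        rw [map_pow, hcv, zero_pow hk]
    have hIX : I * X 2 - 1 = -c ^ (n + 1) := by
      have := geom_sum_mul c (n + 1)
      rw [← hI] at this
      have h2 : c - 1 = -X 2 := by rw [hc]; ring
      rw [h2] at this
      linear_combination -this
    have hcmem : c ^ (n + 1) ∈ (RingHom.ker (eval v)) ^ n := by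
      apply Ideal.pow_le_pow_right (Nat.le_succ n)
      exact Ideal.pow_mem_pow (RingHom.mem_ker.2 hcv) _
    have e1 : aeval (fun i => X 2 * (![X 0 * I, X 1 * I, 1] : Fin 3 → MvPolynomial (Fin 3) ℂ) i) F -
        aeval X F ∈ (RingHom.ker (eval v)) ^ n := by
      apply aeval_sub_mem
      intro i
      fin_cases i
      · have : (X 2 : MvPolynomial (Fin 3) ℂ) * (X 0 * I) - X 0 = -(X 0) * c ^ (n + 1) := by
          linear_combination (X 0 : MvPolynomial (Fin 3) ℂ) * hIX
        show (X 2 : MvPolynomial (Fin 3) ℂ) * (X 0 * I) - X 0 ∈ _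
        rw [this]
        exact Ideal.mul_mem_left _ _ hcmem
      · have : (X 2 : MvPolynomial (Fin 3) ℂ) * (X 1 * I) - X 1 = -(X 1) * c ^ (n + 1) := by
          linear_combination (X 1 : MvPolynomial (Fin 3) ℂ) * hIX
        show (X 2 : MvPolynomial (Fin 3) ℂ) * (X 1 * I) - X 1 ∈ _
        rw [this]
        exact Ideal.mul_mem_left _ _ hcmem
      · show (X 2 : MvPolynomial (Fin 3) ℂ) * 1 - X 2 ∈ _
        rw [mul_one, sub_self]
        exact Ideal.zero_mem _
    rw [aeval_homog hF, aeval_X_left_apply] at e1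
    have e2 : (aeval ![X 0 * I, X 1 * I, 1] F : MvPolynomial (Fin 3) ℂ) =
        aeval ![X 0 * I, X 1 * I] (deh F) := by
      have h1 : (aeval ![X 0 * I, X 1 * I, 1] : MvPolynomial (Fin 3) ℂ →ₐ[ℂ] MvPolynomial (Fin 3) ℂ) =
          (aeval ![X 0 * I, X 1 * I]).comp deh := by
        apply MvPolynomial.algHom_ext
        intro i
        fin_cases i <;> simp [deh]
      rw [h1]
      rfl
    have e3 : (aeval ![X 0 * I, X 1 * I] (deh F) : MvPolynomial (Fin 3) ℂ) ∈
        (RingHom.ker (eval v)) ^ n := by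
      let A : MvPolynomial (Fin 2) ℂ →+* MvPolynomial (Fin 3) ℂ :=
        (aeval ![X 0 * I, X 1 * I] :
          MvPolynomial (Fin 2) ℂ →ₐ[ℂ] MvPolynomial (Fin 3) ℂ).toRingHom
      have h1 : Ideal.map A (RingHom.ker (eval p)) ≤ RingHom.ker (eval v) := by
        rw [Ideal.map_le_iff_le_comap]
        intro G hG
        rw [Ideal.mem_comap, RingHom.mem_ker]
        have h2 : (eval v).comp A = eval p := by
          apply MvPolynomial.ringHom_ext
          · intro r
            simp [A]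
          · intro i
            have hIv' : eval ![p 0, p 1, 1] I = 1 := hIv
            fin_cases i <;> simp [A, hv, hIv']
        exact (DFunLike.congr_fun h2 G).trans hG
      have h2 := Ideal.mem_map_of_mem A h
      rw [Ideal.map_pow] at h2
      exact Ideal.pow_right_mono h1 n h2
    rw [e2] at e1
    have e4 : X 2 ^ d * (aeval ![X 0 * I, X 1 * I] (deh F)) -
        (X 2 ^ d * (aeval ![X 0 * I, X 1 * I] (deh F)) - F) ∈ (RingHom.ker (eval v)) ^ n :=
      Ideal.sub_mem _ (Ideal.mul_mem_left _ _ e3) e1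
    rwa [sub_sub_cancel] at e4

theorem finrank_curves_affine {h : ℕ} (d : ℕ) (m : Fin h → ℕ) (p : Fin h → Fin 2 → ℂ) :
    Module.finrank ℂ (curves d m (fun i => ![p i 0, p i 1, 1])) =
      Module.finrank ℂ (MP_6b2d39_ag.fatSystem d m p) := by
  have hr : LinearMap.range (deh.toLinearMap.domRestrict
      (curves d m (fun i => ![p i 0, p i 1, 1]))) = MP_6b2d39_ag.fatSystem d m p := by
    apply le_antisymm
    · rintro _ ⟨⟨F, hF⟩, rfl⟩
      obtain ⟨hF1, hF2⟩ := mem_curves.1 hF
      show deh F ∈ _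
      rw [MP_6b2d39_ag.fatSystem, Submodule.mem_inf, Submodule.mem_iInf]
      refine ⟨?_, fun i => (van_deh_iff hF1 (m i) (p i)).1 (hF2 i)⟩
      rw [deh_eq_sum]
      apply Submodule.sum_mem
      intro u hu
      rw [mem_restrictTotalDegree]
      refine (totalDegree_monomial_le _ _).trans ?_
      have h1 := hom_degree hF1 (mem_support_iff.1 hu)
      rw [Finsupp.degree_eq_sum, Fin.sum_univ_three] at h1
      rw [Finsupp.sum_fintype _ _ (fun _ => rfl), Fin.sum_univ_two]
      show pr u 0 + pr u 1 ≤ d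
      rw [pr_zero, pr_one]
      omega
    · intro f hf
      rw [MP_6b2d39_ag.fatSystem, Submodule.mem_inf, Submodule.mem_iInf,
        mem_restrictTotalDegree] at hf
      obtain ⟨F, hF1, hF2⟩ := exists_hom hf.1
      refine ⟨⟨F, mem_curves.2 ⟨hF1, fun i => ?_⟩⟩, hF2⟩
      rw [van_deh_iff hF1, hF2]
      exact hf.2 i
  have hinj : Function.Injective (deh.toLinearMap.domRestrict
      (curves d m (fun i => ![p i 0, p i 1, 1]))) := by
    intro F G hFG
    apply Subtype.ext
    exact deh_injOn (mem_curves.1 F.2).1 (mem_curves.1 G.2).1 hFG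
  rw [← hr, LinearMap.finrank_range_of_inj hinj]

end Pool.Agent.Lib.MP_6b2d39_agCr
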