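import Pool.Agent.Lib.MP_6b2d39_agCr.SliceGen
import Pool.Agent.Lib.MP_6b2d39_agCr.Ord

open MvPolynomial

namespace Pool.Agent.Lib.MP_6b2d39_agCr

/-- linear substitution with matrix `B` -/
private noncomputable def linS (B : Matrix (Fin 3) (Fin 3) ℂ) :
    MvPolynomial (Fin 3) ℂ →ₐ[ℂ] MvPolynomial (Fin 3) ℂ :=
  aeval (fun i => ∑ j, C (B i j) * X j)

private theorem linS_comp (B B' : Matrix (Fin 3) (Fin 3) ℂ) :
    (linS B).comp (linS B') = linS (B' * B) := by
  apply MvPolynomial.algHom_ext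
  intro i
  simp only [linS, AlgHom.comp_apply, aeval_X, map_sum, map_mul, Matrix.mul_apply, algHom_C,
    algebraMap_eq, Finset.mul_sum, Finset.sum_mul]
  rw [Finset.sum_comm]
  refine Finset.sum_congr rfl fun j _ => Finset.sum_congr rfl fun k _ => ?_
  ring

private theorem linS_one : linS 1 = AlgHom.id ℂ _ := by
  apply MvPolynomial.algHom_ext
  intro i
  simp only [linS, aeval_X, AlgHom.id_apply]
  rw [Finset.sum_eq_single i]
  · simp
  · intro b _ hb
    simp [Matrix.one_apply_ne (Ne.symm hb)]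
  · simp

private theorem linS_hom (B : Matrix (Fin 3) (Fin 3) ℂ) {F : MvPolynomial (Fin 3) ℂ} {d : ℕ}
    (hF : F.IsHomogeneous d) : (linS B F).IsHomogeneous d := by
  have h := hF.aeval (fun i => ∑ j, C (B i j) * X j) (n := 1) (fun i => by
    apply IsHomogeneous.sum
    intro j _
    simpa using (isHomogeneous_C (Fin 3) (B i j)).mul (isHomogeneous_X ℂ j))
  simpa [linS] using h

private theorem linS_eval (B : Matrix (Fin 3) (Fin 3) ℂ) (v : Fin 3 → ℂ) :
    (fun i => eval v (∑ j, C (B i j) * X j)) = B.mulVec v := by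
  funext i
  simp [Matrix.mulVec, dotProduct]

private theorem linS_van (B : Matrix (Fin 3) (Fin 3) ℂ) {n : ℕ} {v : Fin 3 → ℂ}
    {F : MvPolynomial (Fin 3) ℂ} (h : Van n (B.mulVec v) F) : Van n v (linS B F) := by
  apply van_comp
  rw [linS_eval]
  exact h

/-- linear change of coordinates -/
theorem exists_sub (A : Matrix (Fin 3) (Fin 3) ℂ) (hA : A.det ≠ 0) :
    ∃ φ : MvPolynomial (Fin 3) ℂ ≃ₐ[ℂ] MvPolynomial (Fin 3) ℂ,
      (∀ F d, (φ F).IsHomogeneous d ↔ F.IsHomogeneous d) ∧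
        ∀ n v F, Van n (A.mulVec v) (φ F) ↔ Van n v F := by
  have hu : IsUnit A.det := isUnit_iff_ne_zero.mpr hA
  have h1 : A * A⁻¹ = 1 := Matrix.mul_nonsing_inv A hu
  have h2 : A⁻¹ * A = 1 := Matrix.nonsing_inv_mul A hu
  have e1 : ∀ F, linS A (linS A⁻¹ F) = F := fun F => by
    have := congrArg (fun f : MvPolynomial (Fin 3) ℂ →ₐ[ℂ] MvPolynomial (Fin 3) ℂ => f F)
      (linS_comp A A⁻¹)
    simpa [h2, linS_one] using this
  have e2 : ∀ F, linS A⁻¹ (linS A F) = F := fun F => by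
    have := congrArg (fun f : MvPolynomial (Fin 3) ℂ →ₐ[ℂ] MvPolynomial (Fin 3) ℂ => f F)
      (linS_comp A⁻¹ A)
    simpa [h1, linS_one] using this
  refine ⟨AlgEquiv.ofAlgHom (linS A⁻¹) (linS A) ?_ ?_, ?_, ?_⟩
  · rw [linS_comp, h1, linS_one]
  · rw [linS_comp, h2, linS_one]
  · intro F d
    constructor
    · intro h
      have := linS_hom A h
      simpa [e1] using this
    · intro h
      exact linS_hom A⁻¹ h
  · intro n v F
    constructor
    · intro h
      have := linS_van A h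
      simpa [e1] using this
    · intro h
      refine linS_van A⁻¹ ?_
      rw [Matrix.mulVec_mulVec, h2, Matrix.one_mulVec]
      exact h

private theorem minus_iff {h : ℕ} {δ : ℕ} {μ : Fin h → ℕ} {P R : Fin h → Fin 3 → ℂ}
    {F : MvPolynomial (Fin 3) ℂ} (φ : MvPolynomial (Fin 3) ℂ ≃ₐ[ℂ] MvPolynomial (Fin 3) ℂ)
    (h1 : ∀ F d, (φ F).IsHomogeneous d ↔ F.IsHomogeneous d)
    (h2 : ∀ n l F, Van n (R l) (φ F) ↔ Van n (P l) F) :
    IsMinusOneCurve R δ μ (φ F) ↔ IsMinusOneCurve P δ μ F := by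
  constructor
  · intro H
    refine ⟨?_, (h1 _ _).mp H.hom, fun i => ?_, H.self, H.can⟩
    · exact (MulEquiv.irreducible_iff φ).mp H.irr
    · have := H.mult i
      rwa [h2, h2] at this
  · intro H
    refine ⟨?_, (h1 _ _).mpr H.hom, fun i => ?_, H.self, H.can⟩
    · exact (MulEquiv.irreducible_iff φ).mpr H.irr
    · have := H.mult i
      rwa [h2, h2]

theorem inv_dec {h : ℕ} (d : ℕ) (m : Fin h → ℕ) : Inv (Dec d m) := by
  intro A c P hA hc hD
  obtain ⟨φ, h1, h2⟩ := exists_sub A hA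
  have hvan : ∀ n l F, Van n (A.mulVec (P l)) (φ F) ↔ Van n (P l) F := fun n l F => h2 n (P l) F
  -- curves
  have hcur : ∀ (e : ℕ) (n : Fin h → ℕ) (F : MvPolynomial (Fin 3) ℂ),
      φ F ∈ curves e n (fun l => c l • A.mulVec (P l)) ↔ F ∈ curves e n P := by
    intro e n F
    rw [curves_smul hc, mem_curves, mem_curves, h1]
    simp only [h2]
  have hmin : ∀ (δ : ℕ) (μ : Fin h → ℕ) (F : MvPolynomial (Fin 3) ℂ),
      IsMinusOneCurve (fun l => c l • A.mulVec (P l)) δ μ (φ F) ↔ IsMinusOneCurve P δ μ F := by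
    intro δ μ F
    rw [curve_smul hc]
    exact minus_iff φ h1 hvan
  have hmap : ∀ (e : ℕ) (n : Fin h → ℕ),
      curves e n (fun l => c l • A.mulVec (P l)) =
        (curves e n P).map (φ.toLinearEquiv : MvPolynomial (Fin 3) ℂ →ₗ[ℂ] _) := by
    intro e n
    ext G
    rw [Submodule.mem_map]
    constructor
    · intro hG
      refine ⟨φ.symm G, ?_, by simp⟩
      rw [← hcur]
      simpa using hG
    · rintro ⟨F, hF, rfl⟩
      exact (hcur e n F).mpr hF
  rcases hD with h0 | ⟨κ, hκ, N, δ, μ, F, e, n, hdec, hnef, hvd, hfin⟩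
  · left
    rw [hmap, h0, Submodule.map_bot]
  · right
    refine ⟨κ, hκ, N, δ, μ, fun j => φ (F j), e, n, ?_, ?_, hvd, ?_⟩
    · refine ⟨hdec.one, fun j => (hmin _ _ _).mpr (hdec.curve j), hdec.disj, hdec.deg, hdec.mul,
        hdec.orth, ?_⟩
      intro H hH
      obtain ⟨G, rfl⟩ := φ.surjective H
      obtain ⟨K, hK, hGK⟩ := hdec.sys G ((hcur _ _ _).mp hH)
      refine ⟨φ K, (hcur _ _ _).mpr hK, ?_⟩
      rw [hGK, map_mul, map_prod]
      simp only [map_pow]
    · intro δ' μ' F' hF'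
      obtain ⟨G, rfl⟩ := φ.surjective F'
      exact hnef δ' μ' G ((hmin _ _ _).mp hF')
    · rw [hmap, LinearEquiv.finrank_map_eq]
      exact hfin

end Pool.Agent.Lib.MP_6b2d39_agCr
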