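import Pool.Agent.Lib.MP_6b2d39_agCr.Defs

open MvPolynomial

namespace Pool.Agent.Lib.MP_6b2d39_agCr

/-- a reduced class meets every numerical (-1)-class of positive degree nonnegatively -/
theorem reduced_inter {h : ℕ} (hh : 3 ≤ h) {e : ℕ} {n : Fin h → ℕ} (hred : Reduced e n) {δ : ℕ}
    {μ : Fin h → ℕ} (hδ : 1 ≤ δ) (hself : δ ^ 2 + 1 = ∑ i, μ i ^ 2)
    (hcan : 3 * δ = ∑ i, μ i + 1) : ∑ i, n i * μ i ≤ e * δ := by
  classical
  have hμ : ∀ i, μ i ≤ δ := by
    intro i
    have h1 : μ i ^ 2 ≤ ∑ i, μ i ^ 2 :=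
      Finset.single_le_sum (f := fun i => μ i ^ 2) (fun _ _ => Nat.zero_le _) (Finset.mem_univ i)
    rw [← hself] at h1
    nlinarith
  obtain ⟨i1, -, h1⟩ := Finset.exists_max_image (Finset.univ : Finset (Fin h)) n
    ⟨⟨0, by omega⟩, Finset.mem_univ _⟩
  have hc : (Finset.univ : Finset (Fin h)).card = h := by simp
  have hc1 : ((Finset.univ : Finset (Fin h)).erase i1).card = h - 1 := by
    rw [Finset.card_erase_of_mem (Finset.mem_univ _), hc]
  obtain ⟨i2, hi2, h2⟩ := Finset.exists_max_image ((Finset.univ : Finset (Fin h)).erase i1) n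
    (Finset.card_pos.1 (by omega))
  have hc2 : (((Finset.univ : Finset (Fin h)).erase i1).erase i2).card = h - 1 - 1 := by
    rw [Finset.card_erase_of_mem hi2, hc1]
  obtain ⟨i3, hi3, h3⟩ := Finset.exists_max_image
    (((Finset.univ : Finset (Fin h)).erase i1).erase i2) n (Finset.card_pos.1 (by omega))
  have hi2' := Finset.ne_of_mem_erase hi2
  have hi32 := Finset.ne_of_mem_erase hi3
  have hi31 := Finset.ne_of_mem_erase (Finset.mem_of_mem_erase hi3)
  have hinj : Function.Injective ![i1, i2, i3] := by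
    intro a b hab
    fin_cases a <;> fin_cases b <;> simp_all
  have hle := hred ⟨![i1, i2, i3], hinj⟩
  simp only [Function.Embedding.coeFn_mk, Fin.sum_univ_three, Matrix.cons_val_zero,
    Matrix.cons_val_one, Matrix.cons_val] at hle
  have h31 : n i3 ≤ n i1 := h1 i3 (Finset.mem_univ _)
  have h32 : n i3 ≤ n i2 := h2 i3 (Finset.mem_of_mem_erase hi3)
  -- split the sums
  have s1 : ∀ f : Fin h → ℕ, ∑ i, f i =
      f i1 + (f i2 + ∑ i ∈ ((Finset.univ : Finset (Fin h)).erase i1).erase i2, f i) := by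
    intro f
    rw [Finset.add_sum_erase _ _ hi2, Finset.add_sum_erase _ _ (Finset.mem_univ _)]
  have h5 : ∑ i ∈ ((Finset.univ : Finset (Fin h)).erase i1).erase i2, n i * μ i ≤
      n i3 * ∑ i ∈ ((Finset.univ : Finset (Fin h)).erase i1).erase i2, μ i := by
    rw [Finset.mul_sum]
    exact Finset.sum_le_sum fun i hi => Nat.mul_le_mul_right _ (h3 i hi)
  rw [s1 μ] at hcan
  rw [s1 (fun i => n i * μ i)]
  set R := ∑ i ∈ ((Finset.univ : Finset (Fin h)).erase i1).erase i2, μ i with hR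
  obtain ⟨x, hx⟩ := Nat.exists_eq_add_of_le h31
  obtain ⟨y, hy⟩ := Nat.exists_eq_add_of_le h32
  have k1 := hμ i1
  have k2 := hμ i2
  have k3 : n i3 * R + n i3 * μ i1 + n i3 * μ i2 ≤ n i3 * (3 * δ) := by
    have : R + μ i1 + μ i2 ≤ 3 * δ := by omega
    calc n i3 * R + n i3 * μ i1 + n i3 * μ i2 = n i3 * (R + μ i1 + μ i2) := by ring
      _ ≤ _ := Nat.mul_le_mul_left _ this
  have k4 : x * μ i1 ≤ x * δ := Nat.mul_le_mul_left _ k1
  have k5 : y * μ i2 ≤ y * δ := Nat.mul_le_mul_left _ k2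
  have k6 : (n i1 + n i2 + n i3) * δ ≤ e * δ := Nat.mul_le_mul_right _ hle
  show n i1 * μ i1 + (n i2 * μ i2 + _) ≤ e * δ
  refine le_trans ?_ k6
  rw [hx, hy]
  nlinarith

theorem nef_of_reduced {h : ℕ} (hh : 3 ≤ h) {e : ℕ} {n : Fin h → ℕ} (hred : Reduced e n)
    (P : Fin h → Fin 3 → ℂ) : Nef e n P := by
  intro δ μ F hF
  have hδ : 1 ≤ δ := by
    have := hF.can
    omega
  exact reduced_inter hh hred hδ hF.self hF.can

/-- base of the induction -/
theorem dec_of_nonspecial {h : ℕ} (hh : 3 ≤ h) {e : ℕ} {n : Fin h → ℕ} (hred : Reduced e n)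
    {P : Fin h → Fin 3 → ℂ}
    (hns : (Module.finrank ℂ (curves e n P) : ℤ) = max (vd e n) 0) : Dec e n P := by
  have : Module.Finite ℂ (homogeneousSubmodule (Fin 3) ℂ e) :=
    Module.Finite.iff_fg.mpr (homogeneousSubmodule_fg (Fin 3) ℂ e)
  have : Module.Finite ℂ (curves e n P) :=
    Submodule.finiteDimensional_of_le (S₂ := homogeneousSubmodule (Fin 3) ℂ e) inf_le_left
  by_cases hv : 0 < vd e n
  · right
    refine ⟨Fin 0, inferInstance, fun _ => 0, fun _ => 0, fun _ _ => 0, fun _ => 0, e, n, ?_,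
      nef_of_reduced hh hred P, hv, ?_⟩
    · refine ⟨fun j => j.elim0, fun j => j.elim0, fun j => j.elim0, ?_, ?_, fun j => j.elim0, ?_⟩
      · simp
      · simp
      · intro H hH
        exact ⟨H, hH, by simp⟩
    · rw [hns]
      exact max_eq_left hv.le
  · left
    rw [max_eq_right (not_lt.1 hv)] at hns
    exact Submodule.finrank_eq_zero.1 (by exact_mod_cast hns)

end Pool.Agent.Lib.MP_6b2d39_agCr
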