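import Pool.Agent.Lib.MP_6b2d39_agCr.Step
import Pool.Agent.Lib.MP_6b2d39_agCr.InvDec
import Pool.Agent.Lib.MP_6b2d39_agCr.NefRed
import Pool.Agent.Lib.MP_6b2d39_agCr.Lower

open MvPolynomial

namespace Pool.Agent.Lib.MP_6b2d39_agCr

variable {h : ℕ}

theorem general_dec_step {x y : ℕ × (Fin h → ℕ)} (hxy : CremonaStep x y)
    (hy : General (Dec y.1 y.2)) : General (Dec x.1 x.2) := by
  obtain ⟨τ, _, hle, rfl⟩ := hxy
  exact general_slice τ (inv_dec x.1 x.2) (inv_dec _ _) (fun P hP hD => dec_step hP hle hD) hy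

theorem general_dec_chain {x y : ℕ × (Fin h → ℕ)} (hxy : Relation.ReflTransGen CremonaStep x y)
    (hy : General (Dec y.1 y.2)) : General (Dec x.1 x.2) := by
  induction hxy using Relation.ReflTransGen.head_induction_on with
  | refl => exact hy
  | head hab _ ih => exact general_dec_step hab ih

theorem general_dec_empty {d : ℕ} {m : Fin h → ℕ} (τ : Fin 3 ↪ Fin h)
    (hS : 2 * d < ∑ t, m (τ t)) : General (Dec d m) :=
  general_slice τ (Q' := fun _ => True) (inv_dec d m) (fun _ _ _ _ _ _ => trivial)
    (fun _ hP _ => Or.inl (curves_eq_bot hP hS)) general_true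

/-- Cremona reduction terminates -/
theorem exists_reduced (d : ℕ) (m : Fin h → ℕ) :
    General (Dec d m) ∨ ∃ (e : ℕ) (n : Fin h → ℕ),
      Relation.ReflTransGen CremonaStep (d, m) (e, n) ∧ Reduced e n := by
  induction d using Nat.strong_induction_on generalizing m with
  | _ d ih =>
    by_cases hred : Reduced d m
    · exact Or.inr ⟨d, m, Relation.ReflTransGen.refl, hred⟩
    · unfold Reduced at hred
      push Not at hred
      obtain ⟨τ, hτ⟩ := hred
      by_cases hS : ∑ t, m (τ t) ≤ 2 * d
      · have hstep : CremonaStep (d, m) (2 * d - ∑ t, m (τ t), cmul τ d m) := ⟨τ, hτ, hS, rfl⟩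
        have hlt : 2 * d - ∑ t, m (τ t) < d := by omega
        rcases ih _ hlt (cmul τ d m) with hD | ⟨e, n, hr, hredn⟩
        · exact Or.inl (general_dec_step hstep hD)
        · exact Or.inr ⟨e, n, Relation.ReflTransGen.head hstep hr, hredn⟩
      · exact Or.inl (general_dec_empty τ (not_le.mp hS))

/-- multiplicities do not increase under Cremona reduction -/
theorem le_of_reach {x y : ℕ × (Fin h → ℕ)} (hxy : Relation.ReflTransGen CremonaStep x y) :
    ∀ i, y.2 i ≤ x.2 i := by
  induction hxy using Relation.ReflTransGen.head_induction_on with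
  | refl => exact fun i => le_rfl
  | head hab _ ih =>
    intro i
    refine (ih i).trans ?_
    obtain ⟨τ, hlt, _, rfl⟩ := hab
    simp only [cmul]
    split_ifs
    · omega
    · exact le_rfl

theorem hh_of_dec {d : ℕ} {m : Fin h → ℕ} (hD : General (Dec d m)) :
    General (fun P => IsSpecial d m P ↔ IsMinusOneSpecial d m P) := by
  refine (hD.and (general_coord_ne 2)).mono ?_
  rintro P ⟨h1, h2⟩
  exact ⟨special_of_dec h1, special_of_minusOne (fun e n => vd_le_finrank e n h2)⟩

/-- The conjecture holds for `(d, m)` unless its Cremona reduction is special. -/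
theorem hh_main (hh : 3 ≤ h) (d : ℕ) (m : Fin h → ℕ) :
    General (fun P => IsSpecial d m P ↔ IsMinusOneSpecial d m P) ∨
      ∃ (e : ℕ) (n : Fin h → ℕ), Relation.ReflTransGen CremonaStep (d, m) (e, n) ∧
        Reduced e n ∧
        ¬ General (fun P => (Module.finrank ℂ (curves e n P) : ℤ) = max (vd e n) 0) := by
  rcases exists_reduced d m with hD | ⟨e, n, hr, hred⟩
  · exact Or.inl (hh_of_dec hD)
  · by_cases hg : General (fun P => (Module.finrank ℂ (curves e n P) : ℤ) = max (vd e n) 0)
    · exact Or.inl (hh_of_dec (general_dec_chain hr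
        (hg.mono fun P hP => dec_of_nonspecial hh hred hP)))
    · exact Or.inr ⟨e, n, hr, hred, hg⟩

end Pool.Agent.Lib.MP_6b2d39_agCr
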