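import Pool.Agent.Lib.MP_6b2d39_agCr.Defs

open MvPolynomial

namespace Pool.Agent.Lib.MP_6b2d39_agCr

theorem mon3_mul (a b : Fin 3 → ℕ) : mon3 a * mon3 b = mon3 (fun t => a t + b t) := by
  simp only [mon3, pow_add, Finset.prod_mul_distrib]

theorem mon3_pow (a : Fin 3 → ℕ) (k : ℕ) : mon3 a ^ k = mon3 (fun t => k * a t) := by
  simp only [mon3, ← Finset.prod_pow, ← pow_mul, mul_comm k]

theorem mon3_prod {κ : Type} [Fintype κ] (N : κ → ℕ) (a : κ → Fin 3 → ℕ) :
    ∏ j, mon3 (a j) ^ N j = mon3 (fun t => ∑ j, N j * a j t) := by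
  simp only [mon3_pow]
  simp only [mon3]
  rw [Finset.prod_comm]
  simp only [Finset.prod_pow_eq_pow_sum]

theorem mon3_ne_zero (a : Fin 3 → ℕ) : mon3 a ≠ 0 := by
  unfold mon3
  rw [Finset.prod_ne_zero_iff]
  intro t _
  exact pow_ne_zero _ (X_ne_zero t)

theorem eval_mon3_ne_zero {v : Fin 3 → ℂ} (hv : ∀ t, v t ≠ 0) (a : Fin 3 → ℕ) :
    eval v (mon3 a) ≠ 0 := by
  unfold mon3
  rw [map_prod, Finset.prod_ne_zero_iff]
  intro t _
  rw [map_pow, eval_X]
  exact pow_ne_zero _ (hv t)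

theorem mon3_homogeneous (a : Fin 3 → ℕ) : (mon3 a).IsHomogeneous (∑ t, a t) := by
  unfold mon3
  refine IsHomogeneous.prod _ _ _ fun t _ => ?_
  have := (isHomogeneous_X (R := ℂ) t).pow (a t)
  rwa [one_mul] at this

private lemma erase0 : (Finset.univ : Finset (Fin 3)).erase 0 = {1, 2} := by decide
private lemma erase1 : (Finset.univ : Finset (Fin 3)).erase 1 = {0, 2} := by decide
private lemma erase2 : (Finset.univ : Finset (Fin 3)).erase 2 = {0, 1} := by decide

private lemma cre_X0 : cre (X 0) = X 1 * X 2 := by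
  rw [cre, aeval_X, erase0, Finset.prod_pair (by decide)]
private lemma cre_X1 : cre (X 1) = X 0 * X 2 := by
  rw [cre, aeval_X, erase1, Finset.prod_pair (by decide)]
private lemma cre_X2 : cre (X 2) = X 0 * X 1 := by
  rw [cre, aeval_X, erase2, Finset.prod_pair (by decide)]

theorem cre_mon3 (a : Fin 3 → ℕ) : cre (mon3 a) = mon3 (fun t => (∑ s, a s) - a t) := by
  simp only [mon3, Fin.prod_univ_three, Fin.sum_univ_three, map_mul, map_pow, cre_X0, cre_X1,
    cre_X2]
  have h0 : a 0 + a 1 + a 2 - a 0 = a 1 + a 2 := by omega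
  have h1 : a 0 + a 1 + a 2 - a 1 = a 0 + a 2 := by omega
  have h2 : a 0 + a 1 + a 2 - a 2 = a 0 + a 1 := by omega
  rw [h0, h1, h2]
  ring

theorem eval_cre (v : Fin 3 → ℂ) (F : MvPolynomial (Fin 3) ℂ) :
    eval v (cre F) = eval (cpt v) F := by
  have h : (aeval v).comp cre = (aeval (cpt v) : MvPolynomial (Fin 3) ℂ →ₐ[ℂ] ℂ) := by
    apply MvPolynomial.algHom_ext
    intro t
    rw [AlgHom.comp_apply, cre, aeval_X, aeval_X, map_prod]
    simp only [aeval_X, cpt]
  have := DFunLike.congr_fun h F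
  rw [AlgHom.comp_apply] at this
  exact this

theorem cre_homogeneous {F : MvPolynomial (Fin 3) ℂ} {d : ℕ} (hF : F.IsHomogeneous d) :
    (cre F).IsHomogeneous (2 * d) := by
  unfold cre
  refine hF.aeval _ fun t => ?_
  have h := IsHomogeneous.prod (Finset.univ.erase t) (fun s : Fin 3 => (X s : MvPolynomial (Fin 3) ℂ))
    (fun _ => 1) (fun s _ => isHomogeneous_X ℂ s)
  have h2 : ∑ _s ∈ Finset.univ.erase t, 1 = 2 := by
    fin_cases t <;> decide
  rwa [h2] at h

private lemma monomial_eq_mon3 (u : Fin 3 →₀ ℕ) (c : ℂ) :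
    monomial u c = C c * mon3 (fun t => u t) := by
  rw [monomial_eq, Finsupp.prod_fintype _ _ (fun i => pow_zero _)]
  rfl

theorem cre_cre {F : MvPolynomial (Fin 3) ℂ} {d : ℕ} (hF : F.IsHomogeneous d) :
    cre (cre F) = mon3 (fun _ => d) * F := by
  conv_lhs => rw [F.as_sum]
  conv_rhs => rw [F.as_sum]
  rw [map_sum, map_sum, Finset.mul_sum]
  refine Finset.sum_congr rfl fun u hu => ?_
  have hd : ∑ t, u t = d := by
    have h1 := hF (mem_support_iff.1 hu)
    rw [← h1, Finsupp.weight_apply, Finsupp.sum_fintype _ _ (fun i => by simp)]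
    simp
  rw [monomial_eq_mon3, map_mul, map_mul, cre_mon3, cre_mon3, ← mul_assoc, mul_comm (mon3 _) (C _),
    mul_assoc, mon3_mul]
  have hC : cre (C (coeff u F)) = C (coeff u F) := by
    rw [cre, aeval_C]; rfl
  rw [hC, hC]
  congr 2
  funext t
  rw [Fin.sum_univ_three] at hd ⊢
  rw [Fin.sum_univ_three]
  have h0 : u t ≤ d := by
    fin_cases t <;> simp only [Fin.zero_eta, Fin.mk_one, Fin.reduceFinMk] <;> omega
  omega

private lemma cpt0 (v : Fin 3 → ℂ) : cpt v 0 = v 1 * v 2 := by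
  rw [cpt, erase0, Finset.prod_pair (by decide)]
private lemma cpt1 (v : Fin 3 → ℂ) : cpt v 1 = v 0 * v 2 := by
  rw [cpt, erase1, Finset.prod_pair (by decide)]
private lemma cpt2 (v : Fin 3 → ℂ) : cpt v 2 = v 0 * v 1 := by
  rw [cpt, erase2, Finset.prod_pair (by decide)]

theorem cpt_cpt (v : Fin 3 → ℂ) : cpt (cpt v) = (∏ t, v t) • v := by
  funext t
  rw [Pi.smul_apply, smul_eq_mul, Fin.prod_univ_three]
  fin_cases t
  · simp only [Fin.zero_eta, cpt0, cpt1, cpt2]; ring
  · simp only [Fin.mk_one, cpt0, cpt1, cpt2]; ring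
  · simp only [Fin.reduceFinMk, cpt0, cpt1, cpt2]; ring

theorem cre_injective : Function.Injective cre := by
  rw [injective_iff_map_eq_zero]
  intro F hF
  have h1 : (∏ t, X t) * F = 0 := by
    apply MvPolynomial.funext
    intro w
    rw [map_mul, map_zero, map_prod]
    simp only [eval_X]
    by_cases hw : ∏ t, w t = 0
    · rw [hw, zero_mul]
    · obtain ⟨c, hc⟩ := IsAlgClosed.exists_pow_nat_eq (∏ t, w t)⁻¹ (n := 4) (by norm_num)
      have h2 : cpt (cpt (c • w)) = w := by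
        rw [cpt_cpt, smul_smul]
        have h3 : (∏ t, (c • w) t) * c = 1 := by
          simp only [Fin.prod_univ_three, Pi.smul_apply, smul_eq_mul] at hc hw ⊢
          calc c * w 0 * (c * w 1) * (c * w 2) * c = c ^ 4 * (w 0 * w 1 * w 2) := by ring
            _ = 1 := by rw [hc, inv_mul_cancel₀ hw]
        rw [h3, one_smul]
      have h4 : eval w F = 0 := by
        rw [← h2, ← eval_cre, ← eval_cre, hF, map_zero, map_zero]
      rw [h4, mul_zero]
  have h5 : (∏ t, X t : MvPolynomial (Fin 3) ℂ) ≠ 0 := by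
    rw [Finset.prod_ne_zero_iff]
    intro t _
    exact X_ne_zero t
  exact (mul_eq_zero.1 h1).resolve_left h5

theorem cpt_ne_zero {v : Fin 3 → ℂ} (hv : ∀ t, v t ≠ 0) (t : Fin 3) : cpt v t ≠ 0 := by
  unfold cpt
  rw [Finset.prod_ne_zero_iff]
  exact fun s _ => hv s

theorem slice_cconf {h : ℕ} {τ : Fin 3 ↪ Fin h} {P : Fin h → Fin 3 → ℂ} (hP : Slice τ P) :
    Slice τ (cconf τ P) := by
  refine ⟨fun t => ?_, fun l hl t => ?_⟩
  · rw [cconf, if_pos ⟨t, rfl⟩]
    exact hP.coord t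
  · rw [cconf, if_neg hl]
    exact cpt_ne_zero (hP.off l hl) t

theorem cconf_cconf {h : ℕ} {τ : Fin 3 ↪ Fin h} {P : Fin h → Fin 3 → ℂ} (hP : Slice τ P) :
    ∃ c : Fin h → ℂ, (∀ l, c l ≠ 0) ∧ cconf τ (cconf τ P) = fun l => c l • P l := by
  classical
  refine ⟨fun l => if ∃ t, τ t = l then 1 else ∏ t, P l t, fun l => ?_, ?_⟩
  · by_cases hl : ∃ t, τ t = l
    · simp only [if_pos hl]; exact one_ne_zero
    · simp only [if_neg hl]
      rw [Finset.prod_ne_zero_iff]
      exact fun t _ => hP.off l hl t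
  · funext l
    by_cases hl : ∃ t, τ t = l
    · simp only [cconf, if_pos hl, one_smul]
    · simp only [cconf, if_neg hl]
      rw [cpt_cpt]

end Pool.Agent.Lib.MP_6b2d39_agCr
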