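import Pool.Agent.Lib.MP_6b2d39_agCr.Factor
import Pool.Agent.Lib.MP_6b2d39_agCr.Cre

open MvPolynomial

namespace Pool.Agent.Lib.MP_6b2d39_agCr

/-- if `F ∣ cre A` then the cofactor `B` divides a monomial -/
private theorem Irr_aux {α : ℕ} {a : Fin 3 → ℕ} {F A B : MvPolynomial (Fin 3) ℂ}
    (hA : A.IsHomogeneous α) (hA0 : A ≠ 0) (hFG : mon3 a * (A * B) = cre F)
    (hBX : ∀ t, ¬ (X t : MvPolynomial (Fin 3) ℂ) ∣ B) (h : F ∣ cre A) : IsUnit B := by
  obtain ⟨C, hC⟩ := h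
  have h1 : mon3 (fun _ => α) * A = (mon3 a * B * cre C) * A := by
    rw [← cre_cre hA, hC, map_mul, ← hFG]
    ring
  have h2 : mon3 (fun _ => α) = mon3 a * B * cre C := mul_right_cancel₀ hA0 h1
  exact isUnit_of_dvd_mon3 (a := fun _ => α) ⟨mon3 a * cre C, by rw [h2]; ring⟩ hBX

/-- the transform of an irreducible form which is not a side of the triangle is irreducible -/
theorem irreducible_tr {d d' : ℕ} {a : Fin 3 → ℕ} {F G : MvPolynomial (Fin 3) ℂ}
    (hF : F.IsHomogeneous d) (hirr : Irreducible F) (hFX : ∀ t, ¬ X t ∣ F)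
    (hG : G.IsHomogeneous d') (hGX : ∀ t, ¬ X t ∣ G) (hFG : mon3 a * G = cre F) :
    Irreducible G := by
  have hcc : cre (mon3 a) * cre G = mon3 (fun _ => d) * F := by
    rw [← map_mul, hFG, cre_cre hF]
  have hG0 : G ≠ 0 := by
    rintro rfl
    rw [mul_zero] at hFG
    exact hirr.ne_zero (cre_injective (by rw [← hFG, map_zero]))
  have hno : ¬ F ∣ cre (mon3 a) := by
    intro h
    rw [cre_mon3] at h
    exact hirr.not_isUnit (isUnit_of_dvd_mon3 h hFX)
  have hFd : F ∣ cre (mon3 a) * cre G := ⟨mon3 (fun _ => d), by rw [hcc]; ring⟩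
  have hprime : Prime F := hirr.prime
  refine ⟨?_, ?_⟩
  · intro hu
    have hu2 : IsUnit (cre G) := hu.map cre
    exact hno ((hu2.dvd_mul_right).1 hFd)
  · intro A B hAB
    have hA0 : A ≠ 0 := fun h => hG0 (by rw [hAB, h, zero_mul])
    have hB0 : B ≠ 0 := fun h => hG0 (by rw [hAB, h, mul_zero])
    obtain ⟨α, β, hAh, hBh, _⟩ := homogeneous_of_mul (hAB ▸ hG) (mul_ne_zero hA0 hB0)
    have hAX : ∀ t, ¬ (X t : MvPolynomial (Fin 3) ℂ) ∣ A := fun t h =>
      hGX t (hAB ▸ h.mul_right B)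
    have hBX : ∀ t, ¬ (X t : MvPolynomial (Fin 3) ℂ) ∣ B := fun t h =>
      hGX t (hAB ▸ h.mul_left A)
    rcases hprime.dvd_or_dvd hFd with h | h
    · exact absurd h hno
    · rw [hAB, map_mul] at h
      rcases hprime.dvd_or_dvd h with h | h
      · exact Or.inr (Irr_aux (a := a) hAh hA0 (hAB ▸ hFG) hBX h)
      · refine Or.inl (Irr_aux (a := a) (A := B) (B := A) hBh hB0 ?_ hAX h)
        rw [mul_comm B A, ← hAB]
        exact hFG

end Pool.Agent.Lib.MP_6b2d39_agCr
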