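import Pool.Agent.Lib.MP_6b2d39_agCr.Ord
import Pool.Agent.Lib.MP_6b2d39_agCr.CoordVan

open MvPolynomial

namespace Pool.Agent.Lib.MP_6b2d39_agCr

/-- multiplicities of the side `X s = 0` of the fundamental triangle -/
def lmul {h : ℕ} (τ : Fin 3 ↪ Fin h) (s : Fin 3) : Fin h → ℕ :=
  fun l => if ∃ t, t ≠ s ∧ τ t = l then 1 else 0

variable {h : ℕ} {τ : Fin 3 ↪ Fin h} {P : Fin h → Fin 3 → ℂ}

theorem lmul_apply (s t : Fin 3) : lmul τ s (τ t) = if t = s then 0 else 1 := by
  unfold lmul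
  by_cases h1 : t = s
  · rw [if_pos h1, if_neg]
    rintro ⟨t', ht', h2⟩
    exact ht' ((τ.injective h2).trans h1)
  · rw [if_neg h1, if_pos ⟨t, h1, rfl⟩]

theorem lmul_off (s : Fin 3) {l : Fin h} (hl : ¬ ∃ t, τ t = l) : lmul τ s l = 0 := by
  unfold lmul
  rw [if_neg]
  rintro ⟨t', _, h2⟩
  exact hl ⟨t', h2⟩

/-- intersection of a class with a side -/
theorem sum_mul_lmul (n : Fin h → ℕ) (s : Fin 3) :
    ∑ l, n l * lmul τ s l + n (τ s) = ∑ t, n (τ t) := by
  classical
  have h1 : ∑ l ∈ Finset.univ.map τ, n l * lmul τ s l = ∑ l, n l * lmul τ s l := by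
    apply Finset.sum_subset (Finset.subset_univ _)
    intro l _ hl
    rw [lmul_off, mul_zero]
    rintro ⟨t, ht⟩
    exact hl (Finset.mem_map.mpr ⟨t, Finset.mem_univ _, ht⟩)
  rw [← h1, Finset.sum_map]
  simp only [lmul_apply]
  rw [← Finset.sum_erase_add Finset.univ (fun t => n (τ t)) (Finset.mem_univ s)]
  congr 1
  rw [← Finset.sum_erase_add Finset.univ _ (Finset.mem_univ s)]
  rw [if_pos rfl, mul_zero, add_zero]
  apply Finset.sum_congr rfl
  intro t ht
  rw [if_neg (Finset.ne_of_mem_erase ht), mul_one]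

/-- the sides of the fundamental triangle are (-1)-curves -/
theorem line_curve (hP : Slice τ P) (s : Fin 3) : IsMinusOneCurve P 1 (lmul τ s) (X s) := by
  classical
  refine ⟨(X_prime).irreducible, isHomogeneous_X _ _, ?_, ?_, ?_⟩
  · intro l
    by_cases hl : ∃ t, τ t = l
    · obtain ⟨t, rfl⟩ := hl
      rw [hP.coord t, van_single_iff (isHomogeneous_X _ _), van_single_iff (isHomogeneous_X _ _),
        lmul_apply, support_X]
      simp only [Finset.mem_singleton, forall_eq]
      by_cases h1 : t = s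
      · subst h1
        simp
      · rw [if_neg h1, Finsupp.single_eq_of_ne h1]
        omega
    · rw [lmul_off s hl]
      refine ⟨van_zero _ _, ?_⟩
      rw [zero_add, van_one_iff, eval_X]
      exact hP.off l hl s
  · have h1 := sum_mul_lmul (τ := τ) (lmul τ s) s
    rw [lmul_apply, if_pos rfl, add_zero] at h1
    simp only [sq]
    rw [h1]
    simp only [lmul_apply]
    rw [← Finset.sum_erase_add Finset.univ _ (Finset.mem_univ s), if_pos rfl,
      Finset.sum_congr rfl (fun t ht => if_neg (Finset.ne_of_mem_erase ht))]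
    simp
  · have h1 := sum_mul_lmul (τ := τ) (fun _ => 1) s
    simp only [one_mul] at h1
    rw [h1]
    simp

/-- the class of a (-1)-curve is determined by its equation -/
theorem curve_class_unique {δ δ' : ℕ} {μ μ' : Fin h → ℕ} {F : MvPolynomial (Fin 3) ℂ}
    (hF : IsMinusOneCurve P δ μ F) (hF' : IsMinusOneCurve P δ' μ' F) : δ = δ' ∧ μ = μ' := by
  refine ⟨hF.hom.inj_right hF'.hom hF.irr.ne_zero, ?_⟩
  funext i
  rcases lt_trichotomy (μ i) (μ' i) with h1 | h1 | h1
  · exact absurd (van_anti h1 (hF'.mult i).1) (hF.mult i).2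
  · exact h1
  · exact absurd (van_anti h1 (hF.mult i).1) (hF'.mult i).2

theorem curve_of_associated {δ : ℕ} {μ : Fin h → ℕ} {F F' : MvPolynomial (Fin 3) ℂ}
    (hF : IsMinusOneCurve P δ μ F) (h : Associated F F') : IsMinusOneCurve P δ μ F' := by
  have hvan : ∀ {G G' : MvPolynomial (Fin 3) ℂ} {n : ℕ} {v : Fin 3 → ℂ}, G ∣ G' → Van n v G →
      Van n v G' := by
    rintro G G' n v ⟨c, rfl⟩ hG
    rw [mul_comm]
    exact van_mul_left hG c
  refine ⟨h.irreducible hF.irr, ?_, ?_, hF.self, hF.can⟩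
  · obtain ⟨u, rfl⟩ := h
    obtain ⟨r, _, hr⟩ := (isUnit_iff_eq_C_of_isReduced (P := (u : MvPolynomial (Fin 3) ℂ))).mp
      u.isUnit
    rw [hr, mul_comm]
    have h1 := (isHomogeneous_C (Fin 3) r).mul hF.hom
    rwa [zero_add] at h1
  · intro i
    exact ⟨hvan h.dvd (hF.mult i).1, fun h2 => (hF.mult i).2 (hvan h.symm.dvd h2)⟩

theorem curve_pos {δ : ℕ} {μ : Fin h → ℕ} {F : MvPolynomial (Fin 3) ℂ}
    (hF : IsMinusOneCurve P δ μ F) : 1 ≤ δ := by
  have h1 := hF.can
  omega

theorem curve_ne_zero {δ : ℕ} {μ : Fin h → ℕ} {F : MvPolynomial (Fin 3) ℂ}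
    (hF : IsMinusOneCurve P δ μ F) : F ≠ 0 := hF.irr.ne_zero

/-- an irreducible form divisible by a coordinate is associated to it -/
theorem X_dvd_iff_associated {F : MvPolynomial (Fin 3) ℂ} (hF : Irreducible F) (s : Fin 3) :
    X s ∣ F ↔ Associated F (X s) := by
  constructor
  · intro h1
    exact ((X_prime (R := ℂ) (i := s)).irreducible.associated_of_dvd hF h1).symm
  · intro h1
    exact h1.symm.dvd

end Pool.Agent.Lib.MP_6b2d39_agCr
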