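import Pool.Agent.Lib.MP_6b2d39_agCr.Defs

namespace Pool.Agent.Lib.MP_6b2d39_agCr

/-- the class `(e', n')` is the image of the class `(e, n)` under the reflection belonging to the
quadratic transformation based at `τ 0`, `τ 1`, `τ 2` -/
structure Refl {h : ℕ} (τ : Fin 3 ↪ Fin h) (e : ℕ) (n : Fin h → ℕ) (e' : ℕ) (n' : Fin h → ℕ) :
    Prop where
  deg : e' + ∑ t, n (τ t) = 2 * e
  coord : ∀ t, n' (τ t) + ∑ s, n (τ s) = e + n (τ t)
  off : ∀ l, (¬ ∃ t, τ t = l) → n' l = n l

variable {h : ℕ} {τ : Fin 3 ↪ Fin h} {e e' : ℕ} {n n' : Fin h → ℕ} {δ δ' : ℕ} {μ μ' : Fin h → ℕ}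

private theorem refl_split (τ : Fin 3 ↪ Fin h) (f : Fin h → ℕ) :
    ∑ l, f l = ∑ t, f (τ t) + ∑ l ∈ Finset.univ.filter (fun l => ¬ ∃ t, τ t = l), f l := by
  classical
  rw [← Finset.sum_filter_add_sum_filter_not Finset.univ (fun l => ∃ t, τ t = l)]
  congr 1
  have e : Finset.univ.filter (fun l => ∃ t, τ t = l) = Finset.univ.map τ := by
    ext l
    simp
  rw [e, Finset.sum_map]

private theorem refl_two_choose (n : ℕ) : 2 * ((n + 1).choose 2 : ℤ) = ((n : ℤ) + 1) * n := by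
  induction n with
  | zero => simp
  | succ n ih =>
    rw [Nat.choose_succ_succ' (n + 1) 1, Nat.choose_one_right]
    push_cast
    linarith

theorem Refl.symm (hR : Refl τ e n e' n') : Refl τ e' n' e n := by
  obtain ⟨h1, h2, h3⟩ := hR
  have a0 := h2 0
  have a1 := h2 1
  have a2 := h2 2
  simp only [Fin.sum_univ_three] at *
  refine ⟨?_, ?_, fun l hl => (h3 l hl).symm⟩
  · simp only [Fin.sum_univ_three]
    omega
  · intro t
    simp only [Fin.sum_univ_three]
    fin_cases t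
    · change n (τ 0) + _ = e' + n' (τ 0)
      omega
    · change n (τ 1) + _ = e' + n' (τ 1)
      omega
    · change n (τ 2) + _ = e' + n' (τ 2)
      omega

/-- the reflection preserves the intersection form -/
theorem Refl.form (hR : Refl τ e n e' n') (hS : Refl τ δ μ δ' μ') :
    e' * δ' + ∑ i, n i * μ i = e * δ + ∑ i, n' i * μ' i := by
  rw [refl_split τ (fun i => n i * μ i), refl_split τ (fun i => n' i * μ' i)]
  have hoff : ∑ l ∈ Finset.univ.filter (fun l => ¬ ∃ t, τ t = l), n' l * μ' l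
      = ∑ l ∈ Finset.univ.filter (fun l => ¬ ∃ t, τ t = l), n l * μ l := by
    refine Finset.sum_congr rfl fun l hl => ?_
    rw [hR.off l (Finset.mem_filter.1 hl).2, hS.off l (Finset.mem_filter.1 hl).2]
  rw [hoff]
  have key : e' * δ' + ∑ t, n (τ t) * μ (τ t) = e * δ + ∑ t, n' (τ t) * μ' (τ t) := by
    obtain ⟨h1, h2, -⟩ := hR
    obtain ⟨k1, k2, -⟩ := hS
    have a0 := h2 0
    have a1 := h2 1
    have a2 := h2 2
    have b0 := k2 0
    have b1 := k2 1
    have b2 := k2 2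
    simp only [Fin.sum_univ_three] at *
    zify at *
    have c1 : (e' : ℤ) = 2 * e - (n (τ 0) + n (τ 1) + n (τ 2)) := by linarith
    have c2 : (δ' : ℤ) = 2 * δ - (μ (τ 0) + μ (τ 1) + μ (τ 2)) := by linarith
    have d0 : (n' (τ 0) : ℤ) = e + n (τ 0) - (n (τ 0) + n (τ 1) + n (τ 2)) := by linarith
    have d1 : (n' (τ 1) : ℤ) = e + n (τ 1) - (n (τ 0) + n (τ 1) + n (τ 2)) := by linarith
    have d2 : (n' (τ 2) : ℤ) = e + n (τ 2) - (n (τ 0) + n (τ 1) + n (τ 2)) := by linarith
    have f0 : (μ' (τ 0) : ℤ) = δ + μ (τ 0) - (μ (τ 0) + μ (τ 1) + μ (τ 2)) := by linarith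
    have f1 : (μ' (τ 1) : ℤ) = δ + μ (τ 1) - (μ (τ 0) + μ (τ 1) + μ (τ 2)) := by linarith
    have f2 : (μ' (τ 2) : ℤ) = δ + μ (τ 2) - (μ (τ 0) + μ (τ 1) + μ (τ 2)) := by linarith
    rw [c1, c2, d0, d1, d2, f0, f1, f2]
    ring
  omega

theorem Refl.can (hR : Refl τ e n e' n') : 3 * e' + ∑ i, n i = 3 * e + ∑ i, n' i := by
  rw [refl_split τ n, refl_split τ n']
  have hoff : ∑ l ∈ Finset.univ.filter (fun l => ¬ ∃ t, τ t = l), n' l
      = ∑ l ∈ Finset.univ.filter (fun l => ¬ ∃ t, τ t = l), n l := by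
    refine Finset.sum_congr rfl fun l hl => ?_
    rw [hR.off l (Finset.mem_filter.1 hl).2]
  rw [hoff]
  obtain ⟨h1, h2, -⟩ := hR
  have a0 := h2 0
  have a1 := h2 1
  have a2 := h2 2
  simp only [Fin.sum_univ_three] at *
  omega

theorem Refl.vd_eq (hR : Refl τ e n e' n') : vd e' n' = vd e n := by
  have hf := hR.form hR
  have hc := hR.can
  have e1 : ∀ (e : ℕ) (n : Fin h → ℕ), 2 * vd e n = (e : ℤ) * e + 3 * e + 2
      - ((∑ i, n i * n i : ℕ) : ℤ) - ((∑ i, n i : ℕ) : ℤ) := by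
    intro e n
    unfold vd
    rw [mul_sub, refl_two_choose (e + 1), Finset.mul_sum]
    simp only [refl_two_choose]
    push_cast
    rw [sub_sub, ← Finset.sum_add_distrib]
    congr 1
    · ring
    · exact Finset.sum_congr rfl fun i _ => by ring
  have h1 := e1 e n
  have h2 := e1 e' n'
  zify at hf hc
  push_cast at h1 h2 hf hc
  linarith

/-- the reflection of a pair is given by `cmul` -/
theorem Refl.cmul_eq (hR : Refl τ e n e' n') : 2 * e - ∑ t, n (τ t) = e' ∧ cmul τ e n = n' := by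
  have h2 := hR.coord
  constructor
  · have := hR.deg
    omega
  · funext l
    unfold cmul
    by_cases hl : ∃ t, τ t = l
    · rw [if_pos hl]
      obtain ⟨t, rfl⟩ := hl
      have := h2 t
      omega
    · rw [if_neg hl, hR.off l hl]

/-- intersection with a side of the fundamental triangle becomes intersection with the exceptional
curve of the opposite vertex -/
theorem Refl.side (hR : Refl τ e n e' n') (s : Fin 3) :
    e' + n' (τ s) = n (τ s) + ∑ t, n' (τ t) := by
  obtain ⟨h1, h2, -⟩ := hR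
  have a0 := h2 0
  have a1 := h2 1
  have a2 := h2 2
  simp only [Fin.sum_univ_three] at *
  fin_cases s
  · change e' + n' (τ 0) = n (τ 0) + _
    omega
  · change e' + n' (τ 1) = n (τ 1) + _
    omega
  · change e' + n' (τ 2) = n (τ 2) + _
    omega

end Pool.Agent.Lib.MP_6b2d39_agCr
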