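import Pool.Agent.Lib.MP_6b2d39_agCr.TrCurves
import Pool.Agent.Lib.MP_6b2d39_agCr.Refl
import Pool.Agent.Lib.MP_6b2d39_agCr.Irr
import Pool.Agent.Lib.MP_6b2d39_agCr.Line

open MvPolynomial

namespace Pool.Agent.Lib.MP_6b2d39_agCr

variable {h : ℕ} {τ : Fin 3 ↪ Fin h} {P : Fin h → Fin 3 → ℂ} {δ : ℕ} {μ : Fin h → ℕ}
  {F : MvPolynomial (Fin 3) ℂ}

private theorem CurveTr_deg {G : MvPolynomial (Fin 3) ℂ} {d : ℕ} (hG : G.IsHomogeneous d)
    {u : Fin 3 →₀ ℕ} (hu : u ∈ G.support) : ∑ t, u t = d := by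
  have h1 := hG (mem_support_iff.1 hu)
  rw [Finsupp.weight_apply, Finsupp.sum_fintype _ _ (fun i => by simp)] at h1
  simpa using h1

/-- the strict transform of a (-1)-curve that is not a side of the triangle is a (-1)-curve -/
theorem curve_tr (hP : Slice τ P) (hF : IsMinusOneCurve P δ μ F)
    (hns : ∀ s, ¬ Associated F (X s)) :
    ∃ (δ' : ℕ) (μ' : Fin h → ℕ) (F' : MvPolynomial (Fin 3) ℂ),
      Refl τ δ μ δ' μ' ∧ IsMinusOneCurve (cconf τ P) δ' μ' F' ∧
        mon3 (fun t => μ (τ t)) * F' = cre F := by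
  have hF0 : F ≠ 0 := hF.irr.ne_zero
  -- exponents
  have hexp : ∀ u ∈ F.support, ∀ t, u t + μ (τ t) ≤ δ := by
    intro u hu t
    have h1 := (hF.mult (τ t)).1
    rw [hP.coord t] at h1
    exact (van_single_iff hF.hom _ t).1 h1 u hu
  have hS : ∑ t, μ (τ t) ≤ 2 * δ := by
    obtain ⟨u, hu⟩ := support_nonempty.2 hF0
    have h1 := CurveTr_deg hF.hom hu
    have h2 := hexp u hu 0
    have h3 := hexp u hu 1
    have h4 := hexp u hu 2
    rw [Fin.sum_univ_three] at h1 ⊢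
    omega
  have hvan : ∀ t, Van (μ (τ t)) (Pi.single t 1) F := by
    intro t
    have h1 := (hF.mult (τ t)).1
    rwa [hP.coord t] at h1
  obtain ⟨G, hGh, hGF, hGs⟩ := exists_tr (a := fun t => μ (τ t)) hF.hom hvan hS
  have hFX : ∀ s, ¬ (X s : MvPolynomial (Fin 3) ℂ) ∣ F := fun s hs =>
    hns s ((X_dvd_iff_associated hF.irr s).1 hs)
  -- the partner exponent
  have hpart : ∀ u ∈ F.support, ∃ w ∈ G.support, ∀ t, w t + u t + μ (τ t) = δ := by
    intro u hu
    refine ⟨Finsupp.equivFunOnFinite.symm (fun t => δ - u t - μ (τ t)), ?_, ?_⟩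
    · rw [hGs]
      refine ⟨u, hu, fun t => ?_⟩
      have := hexp u hu t
      simp only [Finsupp.equivFunOnFinite_symm_apply_apply]
      omega
    · intro t
      have := hexp u hu t
      simp only [Finsupp.equivFunOnFinite_symm_apply_apply]
      omega
  -- an exponent `w` of `G` with `w s = δ - μ_s`
  have hmax : ∀ s, ∃ w ∈ G.support, w s + μ (τ s) = δ := by
    intro s
    have h1 := hFX s
    rw [X_dvd_iff_support] at h1
    push Not at h1
    obtain ⟨u, hu, hus⟩ := h1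
    obtain ⟨w, hw, hwt⟩ := hpart u hu
    refine ⟨w, hw, ?_⟩
    have := hwt s
    omega
  have hle : ∀ w ∈ G.support, ∀ s, w s + μ (τ s) ≤ δ := by
    intro w hw s
    obtain ⟨u, _, hut⟩ := (hGs w).1 hw
    have := hut s
    omega
  have hmin : ∀ s, ∃ w ∈ G.support, w s = 0 := by
    intro s
    have h1 := (hF.mult (τ s)).2
    rw [hP.coord s, van_single_iff hF.hom] at h1
    push Not at h1
    obtain ⟨u, hu, hus⟩ := h1
    obtain ⟨w, hw, hwt⟩ := hpart u hu
    refine ⟨w, hw, ?_⟩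
    have h2 := hwt s
    have h3 := hexp u hu s
    omega
  have hGX : ∀ s, ¬ (X s : MvPolynomial (Fin 3) ℂ) ∣ G := by
    intro s hs
    rw [X_dvd_iff_support] at hs
    obtain ⟨w, hw, hw0⟩ := hmin s
    have := hs w hw
    omega
  have hSle : ∀ s, ∑ t, μ (τ t) ≤ δ + μ (τ s) := by
    intro s
    obtain ⟨w, hw, hws⟩ := hmax s
    have h1 := CurveTr_deg hGh hw
    have h2 : w s ≤ ∑ t, w t := Finset.single_le_sum (f := fun t => w t)
      (fun _ _ => Nat.zero_le _) (Finset.mem_univ s)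
    omega
  have hcm : ∀ t, cmul τ δ μ (τ t) = δ + μ (τ t) - ∑ s, μ (τ s) := by
    intro t
    unfold cmul
    rw [if_pos ⟨t, rfl⟩]
  have hco : ∀ l, (¬ ∃ t, τ t = l) → cmul τ δ μ l = μ l := by
    intro l hl
    unfold cmul
    rw [if_neg hl]
  have hR : Refl τ δ μ (2 * δ - ∑ t, μ (τ t)) (cmul τ δ μ) := by
    refine ⟨by omega, fun t => ?_, hco⟩
    rw [hcm t]
    have := hSle t
    omega
  refine ⟨2 * δ - ∑ t, μ (τ t), cmul τ δ μ, G, hR, ?_, hGF⟩
  refine ⟨irreducible_tr hF.hom hF.irr hFX hGh hGX hGF, hGh, fun l => ?_, ?_, ?_⟩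
  · by_cases hl : ∃ t, τ t = l
    · obtain ⟨s, rfl⟩ := hl
      have h1 : cconf τ P (τ s) = Pi.single s 1 := by
        unfold cconf
        rw [if_pos ⟨s, rfl⟩, hP.coord s]
      rw [h1, van_single_iff hGh, van_single_iff hGh, hcm s]
      refine ⟨fun w hw => ?_, fun hcon => ?_⟩
      · have h2 := hle w hw s
        have h3 := hSle s
        omega
      · obtain ⟨w, hw, hws⟩ := hmax s
        have h2 := hcon w hw
        have h3 := hSle s
        omega
    · have h1 : cconf τ P l = cpt (P l) := by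
        unfold cconf
        rw [if_neg hl]
      rw [h1, hco l hl, tr_van_iff (hP.off l hl) hF.hom hGF,
        tr_van_iff (hP.off l hl) hF.hom hGF]
      exact hF.mult l
  · have h1 := hR.form hR
    have h2 := hF.self
    simp only [pow_two] at h2 ⊢
    omega
  · have h1 := hR.can
    have h2 := hF.can
    omega

/-- the same in the opposite direction -/
theorem curve_tr_symm (hP : Slice τ P) (hF : IsMinusOneCurve (cconf τ P) δ μ F)
    (hns : ∀ s, ¬ Associated F (X s)) :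
    ∃ (δ' : ℕ) (μ' : Fin h → ℕ) (F' : MvPolynomial (Fin 3) ℂ),
      Refl τ δ μ δ' μ' ∧ IsMinusOneCurve P δ' μ' F' ∧
        mon3 (fun t => μ (τ t)) * F' = cre F := by
  obtain ⟨δ', μ', F', hR, hC, hE⟩ := curve_tr (slice_cconf hP) hF hns
  obtain ⟨c, hc, hcc⟩ := cconf_cconf hP
  rw [hcc, curve_smul hc] at hC
  exact ⟨δ', μ', F', hR, hC, hE⟩

end Pool.Agent.Lib.MP_6b2d39_agCr
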