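import Mathlib

/-!
Linear systems of plane curves with multiple general base points, in homogeneous coordinates.
A point of the plane is given by a nonzero vector `v : Fin 3 → ℂ`, a plane curve of degree `d` by a
homogeneous polynomial of degree `d` in three variables.
-/

open MvPolynomial

namespace Pool.Agent.Lib.MP_6b2d39_agCr

/-- `F` has multiplicity at least `n` at the point `v`: it lies in the `n`-th power of the ideal of
all polynomials vanishing at `v`. -/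
def Van (n : ℕ) (v : Fin 3 → ℂ) (F : MvPolynomial (Fin 3) ℂ) : Prop :=
  F ∈ (RingHom.ker (eval v)) ^ n

/-- The linear system `L_d(m)`: the vector space of homogeneous polynomials of degree `d` in three
variables with multiplicity at least `m i` at `P i` for every `i`. -/
noncomputable def curves {h : ℕ} (d : ℕ) (m : Fin h → ℕ) (P : Fin h → Fin 3 → ℂ) :
    Submodule ℂ (MvPolynomial (Fin 3) ℂ) :=
  homogeneousSubmodule (Fin 3) ℂ d ⊓ ⨅ i, ((RingHom.ker (eval (P i))) ^ (m i)).restrictScalars ℂ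

/-- The virtual dimension of `L_d(m)` plus one. -/
def vd {h : ℕ} (d : ℕ) (m : Fin h → ℕ) : ℤ :=
  ((d + 2).choose 2 : ℤ) - ∑ i, ((m i + 1).choose 2 : ℤ)

/-- `Q` holds for general points: outside the zero set of some nonzero polynomial in the
homogeneous coordinates of the points. -/
def General {h : ℕ} (Q : (Fin h → Fin 3 → ℂ) → Prop) : Prop :=
  ∃ Φ : MvPolynomial (Fin h × Fin 3) ℂ, Φ ≠ 0 ∧
    ∀ P : Fin h → Fin 3 → ℂ, eval (fun q => P q.1 q.2) Φ ≠ 0 → Q P

/-- `L_d(m)` with base points `P` is special: its dimension is larger than the expected one. -/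
def IsSpecial {h : ℕ} (d : ℕ) (m : Fin h → ℕ) (P : Fin h → Fin 3 → ℂ) : Prop :=
  max (vd d m) 0 < (Module.finrank ℂ (curves d m P) : ℤ)

/-- `F` is the equation of an irreducible plane curve of degree `δ` with multiplicity `μ i` at
`P i`, whose strict transform `C` on the blow-up of the plane at the `P i` satisfies
`C ^ 2 = δ ^ 2 - ∑ (μ i) ^ 2 = -1` and `C · K = -3 δ + ∑ μ i = -1`. -/
structure IsMinusOneCurve {h : ℕ} (P : Fin h → Fin 3 → ℂ) (δ : ℕ) (μ : Fin h → ℕ)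
    (F : MvPolynomial (Fin 3) ℂ) : Prop where
  irr : Irreducible F
  hom : F.IsHomogeneous δ
  mult : ∀ i, Van (μ i) (P i) F ∧ ¬ Van (μ i + 1) (P i) F
  self : δ ^ 2 + 1 = ∑ i, μ i ^ 2
  can : 3 * δ = ∑ i, μ i + 1

/-- `L_d(m)` with base points `P` is (-1)-special: it is `∑ N j C j + M` with pairwise disjoint
(-1)-curves `C j`, `N j ≥ 1`, some `N j ≥ 2`, `M = L_e(n)` of virtual dimension at least `0` and
`M · C j = 0` for every `j`. -/
def IsMinusOneSpecial {h : ℕ} (d : ℕ) (m : Fin h → ℕ) (P : Fin h → Fin 3 → ℂ) : Prop :=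
  ∃ (k : ℕ) (N δ : Fin k → ℕ) (μ : Fin k → Fin h → ℕ) (F : Fin k → MvPolynomial (Fin 3) ℂ)
    (e : ℕ) (n : Fin h → ℕ),
    (∀ j, 1 ≤ N j) ∧ (∃ j, 2 ≤ N j) ∧ (∀ j, IsMinusOneCurve P (δ j) (μ j) (F j)) ∧
    (∀ j l, j ≠ l → δ j * δ l = ∑ i, μ j i * μ l i) ∧
    d = e + ∑ j, N j * δ j ∧ (∀ i, m i = n i + ∑ j, N j * μ j i) ∧
    (∀ j, e * δ j = ∑ i, n i * μ j i) ∧ 0 < vd e n ∧
    ∀ H, H ∈ curves d m P ↔ ∃ G ∈ curves e n P, H = (∏ j, F j ^ N j) * G

/-- Effect of the quadratic Cremona transformation based at the points `τ 0`, `τ 1`, `τ 2` on the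
multiplicities; lines of the fundamental triangle that split off are removed (natural subtraction):
the multiplicity at `τ t` becomes `max (d - m (τ r) - m (τ s)) 0`, where `{r, s, t} = {0, 1, 2}`. -/
def cmul {h : ℕ} (τ : Fin 3 ↪ Fin h) (d : ℕ) (m : Fin h → ℕ) : Fin h → ℕ :=
  fun l => if ∃ t, τ t = l then d + m l - ∑ t, m (τ t) else m l

/-- One step of Cremona reduction: three of the multiplicities have sum larger than `d` (and at
most `2 d`), and the quadratic Cremona transformation based at these points is applied. -/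
def CremonaStep {h : ℕ} (x y : ℕ × (Fin h → ℕ)) : Prop :=
  ∃ τ : Fin 3 ↪ Fin h, x.1 < ∑ t, x.2 (τ t) ∧ ∑ t, x.2 (τ t) ≤ 2 * x.1 ∧
    y = (2 * x.1 - ∑ t, x.2 (τ t), cmul τ x.1 x.2)

/-- `(d, m)` is Cremona reduced: no three of the multiplicities have sum larger than `d`. -/
def Reduced {h : ℕ} (d : ℕ) (m : Fin h → ℕ) : Prop :=
  ∀ τ : Fin 3 ↪ Fin h, ∑ t, m (τ t) ≤ d

/-! ### auxiliary notions -/

/-- decomposition of a linear system into multiples of disjoint (-1)-curves and a residual system -/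
structure IsDec {h : ℕ} {κ : Type} [Fintype κ] (d : ℕ) (m : Fin h → ℕ) (P : Fin h → Fin 3 → ℂ)
    (N δ : κ → ℕ) (μ : κ → Fin h → ℕ) (F : κ → MvPolynomial (Fin 3) ℂ) (e : ℕ) (n : Fin h → ℕ) :
    Prop where
  one : ∀ j, 1 ≤ N j
  curve : ∀ j, IsMinusOneCurve P (δ j) (μ j) (F j)
  disj : ∀ j l, j ≠ l → δ j * δ l = ∑ i, μ j i * μ l i
  deg : d = e + ∑ j, N j * δ j
  mul : ∀ i, m i = n i + ∑ j, N j * μ j i
  orth : ∀ j, e * δ j = ∑ i, n i * μ j i
  sys : ∀ H ∈ curves d m P, ∃ G ∈ curves e n P, H = (∏ j, F j ^ N j) * G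

/-- the class `(e, n)` meets every (-1)-curve of positive degree nonnegatively -/
def Nef {h : ℕ} (e : ℕ) (n : Fin h → ℕ) (P : Fin h → Fin 3 → ℂ) : Prop :=
  ∀ (δ : ℕ) (μ : Fin h → ℕ) (F : MvPolynomial (Fin 3) ℂ), IsMinusOneCurve P δ μ F →
    ∑ i, n i * μ i ≤ e * δ

/-- the system is empty or decomposes with a nonspecial moving part -/
def Dec {h : ℕ} (d : ℕ) (m : Fin h → ℕ) (P : Fin h → Fin 3 → ℂ) : Prop :=
  curves d m P = ⊥ ∨ ∃ (κ : Type) (_ : Fintype κ) (N δ : κ → ℕ) (μ : κ → Fin h → ℕ)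
    (F : κ → MvPolynomial (Fin 3) ℂ) (e : ℕ) (n : Fin h → ℕ),
    IsDec d m P N δ μ F e n ∧ Nef e n P ∧ 0 < vd e n ∧
      (Module.finrank ℂ (curves e n P) : ℤ) = vd e n

/-- the quadratic map on points -/
def cpt (v : Fin 3 → ℂ) : Fin 3 → ℂ := fun t => ∏ s ∈ Finset.univ.erase t, v s

/-- the quadratic map on polynomials: `X 0 ↦ X 1 * X 2` and so on -/
noncomputable def cre : MvPolynomial (Fin 3) ℂ →ₐ[ℂ] MvPolynomial (Fin 3) ℂ :=
  aeval (fun t => ∏ s ∈ Finset.univ.erase t, X s)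

/-- the monomial with exponents `a` -/
noncomputable def mon3 (a : Fin 3 → ℕ) : MvPolynomial (Fin 3) ℂ := ∏ t, X t ^ a t

/-- the base points `τ 0`, `τ 1`, `τ 2` are the coordinate points and the other ones have nonzero
coordinates -/
structure Slice {h : ℕ} (τ : Fin 3 ↪ Fin h) (P : Fin h → Fin 3 → ℂ) : Prop where
  coord : ∀ t, P (τ t) = Pi.single t 1
  off : ∀ l, (¬ ∃ t, τ t = l) → ∀ t, P l t ≠ 0

/-- the quadratic map on the base points -/
def cconf {h : ℕ} (τ : Fin 3 ↪ Fin h) (P : Fin h → Fin 3 → ℂ) : Fin h → Fin 3 → ℂ :=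
  fun l => if ∃ t, τ t = l then P l else cpt (P l)

end Pool.Agent.Lib.MP_6b2d39_agCr
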