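import Pool.Agent.Lib.MP_6b2d39_agCr.Defs

open MvPolynomial

namespace Pool.Agent.Lib.MP_6b2d39_agCr

private noncomputable def facT : MvPolynomial (Fin 3) ℂ →ₐ[ℂ] Polynomial (MvPolynomial (Fin 3) ℂ) :=
  aeval (fun i => Polynomial.X * Polynomial.C (X i))

private lemma facT_monomial (s : Fin 3 →₀ ℕ) (c : ℂ) :
    facT (monomial s c) = Polynomial.monomial s.degree (monomial s c) := by
  unfold facT
  rw [aeval_monomial, monomial_eq, Finsupp.prod, Finsupp.prod]
  simp only [mul_pow]
  rw [Finset.prod_mul_distrib, Finset.prod_pow_eq_pow_sum, ← Finsupp.degree_apply]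
  have h1 : (algebraMap ℂ (Polynomial (MvPolynomial (Fin 3) ℂ))) c = Polynomial.C (C c) := rfl
  rw [h1, ← Polynomial.C_mul_X_pow_eq_monomial, map_mul, map_prod]
  simp only [map_pow]
  ring

private lemma facT_coeff (F : MvPolynomial (Fin 3) ℂ) (n : ℕ) :
    (facT F).coeff n = homogeneousComponent n F := by
  conv_lhs => rw [F.as_sum]
  rw [map_sum, Polynomial.finsetSum_coeff, homogeneousComponent_apply, Finset.sum_filter]
  refine Finset.sum_congr rfl fun s _ => ?_
  rw [facT_monomial, Polynomial.coeff_monomial]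

private lemma hom_of_coeff {A : MvPolynomial (Fin 3) ℂ} {a : ℕ}
    (h : ∀ n, n ≠ a → homogeneousComponent n A = 0) : A.IsHomogeneous a := by
  intro s hs
  by_contra hne
  have h1 : homogeneousComponent s.degree A = 0 := by
    refine h _ ?_
    intro h2
    apply hne
    rw [← h2, Finsupp.degree_eq_weight_one]
    rfl
  have h2 : coeff s (homogeneousComponent s.degree A) = coeff s A := by
    rw [coeff_homogeneousComponent, if_pos rfl]
  rw [h1, coeff_zero] at h2
  exact hs h2.symm

/-- factors of a form are forms -/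
theorem homogeneous_of_mul {A B : MvPolynomial (Fin 3) ℂ} {d : ℕ} (hAB : (A * B).IsHomogeneous d)
    (hne : A * B ≠ 0) : ∃ a b, A.IsHomogeneous a ∧ B.IsHomogeneous b ∧ a + b = d := by
  have hT : facT A * facT B = Polynomial.monomial d (A * B) := by
    rw [← map_mul]
    ext1 n
    rw [facT_coeff, Polynomial.coeff_monomial, homogeneousComponent_of_mem hAB]
    by_cases h : n = d
    · rw [if_pos h, if_pos h.symm]
    · rw [if_neg h, if_neg (Ne.symm h)]
  have hT0 : facT A * facT B ≠ 0 := by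
    rw [hT]
    simpa using hne
  have hA : facT A ≠ 0 := left_ne_zero_of_mul hT0
  have hB : facT B ≠ 0 := right_ne_zero_of_mul hT0
  have e1 : (facT A).natDegree + (facT B).natDegree = d := by
    rw [← Polynomial.natDegree_mul hA hB, hT, Polynomial.natDegree_monomial_eq d hne]
  have e2 : (facT A).natTrailingDegree + (facT B).natTrailingDegree = d := by
    rw [← Polynomial.natTrailingDegree_mul hA hB, hT, Polynomial.natTrailingDegree_monomial hne]
  have l1 := Polynomial.natTrailingDegree_le_natDegree (facT A)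
  have l2 := Polynomial.natTrailingDegree_le_natDegree (facT B)
  have k1 : (facT A).natTrailingDegree = (facT A).natDegree := by omega
  have k2 : (facT B).natTrailingDegree = (facT B).natDegree := by omega
  refine ⟨_, _, hom_of_coeff (a := (facT A).natDegree) ?_,
    hom_of_coeff (a := (facT B).natDegree) ?_, e1⟩
  · intro n hn
    rw [← facT_coeff]
    rcases lt_or_gt_of_ne hn with h | h
    · exact Polynomial.coeff_eq_zero_of_lt_natTrailingDegree (by rw [k1]; exact h)
    · exact Polynomial.coeff_eq_zero_of_natDegree_lt h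
  · intro n hn
    rw [← facT_coeff]
    rcases lt_or_gt_of_ne hn with h | h
    · exact Polynomial.coeff_eq_zero_of_lt_natTrailingDegree (by rw [k2]; exact h)
    · exact Polynomial.coeff_eq_zero_of_natDegree_lt h

private lemma dvd_of_dvd_X_pow_mul {A B : MvPolynomial (Fin 3) ℂ} {t : Fin 3} {k : ℕ}
    (h : A ∣ X t ^ k * B) (hX : ¬ (X t : MvPolynomial (Fin 3) ℂ) ∣ A) : A ∣ B := by
  obtain ⟨D, hD⟩ := h
  have hp : Prime (X t : MvPolynomial (Fin 3) ℂ) := X_prime
  have h1 : (X t : MvPolynomial (Fin 3) ℂ) ^ k ∣ A * D := ⟨B, hD.symm⟩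
  obtain ⟨E, hE⟩ := hp.pow_dvd_of_dvd_mul_left k hX h1
  refine ⟨E, ?_⟩
  have h2 : (X t : MvPolynomial (Fin 3) ℂ) ^ k ≠ 0 := pow_ne_zero _ (X_ne_zero t)
  apply mul_left_cancel₀ h2
  rw [hD, hE]
  ring

/-- a divisor of a monomial that is divisible by no variable is a unit -/
theorem isUnit_of_dvd_mon3 {A : MvPolynomial (Fin 3) ℂ} {a : Fin 3 → ℕ} (h : A ∣ mon3 a)
    (hX : ∀ t, ¬ (X t : MvPolynomial (Fin 3) ℂ) ∣ A) : IsUnit A := by
  unfold mon3 at h
  rw [Fin.prod_univ_three, mul_assoc] at h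
  have h1 := dvd_of_dvd_X_pow_mul h (hX 0)
  have h2 := dvd_of_dvd_X_pow_mul h1 (hX 1)
  rw [← mul_one ((X 2 : MvPolynomial (Fin 3) ℂ) ^ a 2)] at h2
  have h3 := dvd_of_dvd_X_pow_mul h2 (hX 2)
  exact isUnit_of_dvd_one h3

end Pool.Agent.Lib.MP_6b2d39_agCr
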