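import Pool.Agent.Lib.MP_6b2d39_agCr.Defs

open MvPolynomial

namespace Pool.Agent.Lib.MP_6b2d39_agCr

variable {h : ℕ} {Q R : (Fin h → Fin 3 → ℂ) → Prop}

theorem General.and (hQ : General Q) (hR : General R) : General (fun P => Q P ∧ R P) := by
  obtain ⟨Φ, hΦ, h1⟩ := hQ
  obtain ⟨Ψ, hΨ, h2⟩ := hR
  refine ⟨Φ * Ψ, mul_ne_zero hΦ hΨ, fun P hP => ?_⟩
  rw [map_mul] at hP
  exact ⟨h1 P (left_ne_zero_of_mul hP), h2 P (right_ne_zero_of_mul hP)⟩

theorem General.mono (hQ : General Q) (hQR : ∀ P, Q P → R P) : General R := by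
  obtain ⟨Φ, hΦ, h1⟩ := hQ
  exact ⟨Φ, hΦ, fun P hP => hQR P (h1 P hP)⟩

theorem General.exists (hQ : General Q) : ∃ P, Q P := by
  obtain ⟨Φ, hΦ, h1⟩ := hQ
  by_contra hcon
  push Not at hcon
  apply hΦ
  apply MvPolynomial.funext
  intro x
  rw [map_zero]
  by_contra hne
  exact hcon (fun i t => x (i, t)) (h1 (fun i t => x (i, t)) hne)

theorem general_true : General (h := h) (fun _ => True) :=
  ⟨1, one_ne_zero, fun _ _ => trivial⟩

theorem general_coord_ne (t : Fin 3) : General (h := h) (fun P => ∀ l, P l t ≠ 0) := by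
  refine ⟨∏ l, X (l, t), ?_, fun P hP l => ?_⟩
  · exact Finset.prod_ne_zero_iff.2 (fun l _ => X_ne_zero _)
  · rw [map_prod] at hP
    have := Finset.prod_ne_zero_iff.1 hP l (Finset.mem_univ _)
    simpa using this

end Pool.Agent.Lib.MP_6b2d39_agCr
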