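import Pool.Agent.Lib.MP_6b2d39_agCr.CurveTr

open MvPolynomial

namespace Pool.Agent.Lib.MP_6b2d39_agCr

variable {h : ℕ} {τ : Fin 3 ↪ Fin h} {P : Fin h → Fin 3 → ℂ} {e e' : ℕ} {n n' : Fin h → ℕ}

/-- members of the moving part are transformed into members of the moving part -/
theorem moving_tr (hP : Slice τ P) (hR : Refl τ e' n' e n) {G : MvPolynomial (Fin 3) ℂ}
    (hG : G ∈ curves e' n' (cconf τ P)) :
    ∃ H ∈ curves e n P, mon3 (fun t => n' (τ t)) * H = cre G := by
  have hS : ∑ t, n' (τ t) ≤ 2 * e' := by have := hR.deg; omega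
  obtain ⟨H, hH, hHG⟩ := tr_curves (slice_cconf hP) hG hS
  obtain ⟨h1, h2⟩ := hR.cmul_eq
  obtain ⟨c, hc, hcc⟩ := cconf_cconf hP
  rw [h1, h2, hcc, curves_smul hc] at hH
  exact ⟨H, hH, hHG⟩

/-- the converse of `moving_tr` -/
theorem moving_back (hP : Slice τ P) (hR : Refl τ e' n' e n) {H : MvPolynomial (Fin 3) ℂ}
    (hH : H ∈ curves e n P) :
    ∃ G ∈ curves e' n' (cconf τ P), mon3 (fun t => n' (τ t)) * H = cre G := by
  have hRs := hR.symm
  have hS : ∑ t, n (τ t) ≤ 2 * e := by have := hRs.deg; omega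
  obtain ⟨G, hG, hGH⟩ := tr_curves hP hH hS
  obtain ⟨h1, h2⟩ := hRs.cmul_eq
  rw [h1, h2] at hG
  refine ⟨G, hG, ?_⟩
  have hHh : H.IsHomogeneous e := (mem_curves.mp hH).1
  have e1 := congrArg cre hGH
  rw [map_mul, cre_mon3, cre_cre hHh] at e1
  have e2 : (mon3 (fun _ => e) : MvPolynomial (Fin 3) ℂ)
      = mon3 (fun t => (∑ s, n (τ s)) - n (τ t)) * mon3 (fun t => n' (τ t)) := by
    rw [mon3_mul]
    congr 1
    funext t
    have hc := hRs.coord t
    have hle : n (τ t) ≤ ∑ s, n (τ s) :=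
      Finset.single_le_sum (f := fun s => n (τ s)) (fun _ _ => Nat.zero_le _) (Finset.mem_univ t)
    omega
  rw [e2, mul_assoc] at e1
  exact (mul_left_cancel₀ (mon3_ne_zero _) e1).symm

theorem finrank_moving (hP : Slice τ P) (hR : Refl τ e' n' e n) :
    Module.finrank ℂ (curves e n P) = Module.finrank ℂ (curves e' n' (cconf τ P)) := by
  have hmap : (curves e n P).map (LinearMap.mulLeft ℂ (mon3 (fun t => n' (τ t))))
      = (curves e' n' (cconf τ P)).map cre.toLinearMap := by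
    ext x
    constructor
    · rintro ⟨H, hH, rfl⟩
      obtain ⟨G, hG, hGH⟩ := moving_back hP hR hH
      exact ⟨G, hG, hGH.symm⟩
    · rintro ⟨G, hG, rfl⟩
      obtain ⟨H, hH, hHG⟩ := moving_tr hP hR hG
      exact ⟨H, hH, hHG⟩
  have i1 : Function.Injective (LinearMap.mulLeft ℂ
      (mon3 (fun t => n' (τ t)) : MvPolynomial (Fin 3) ℂ)) := by
    intro a b hab
    exact mul_left_cancel₀ (mon3_ne_zero _) hab
  have i2 : Function.Injective
      (cre.toLinearMap : MvPolynomial (Fin 3) ℂ →ₗ[ℂ] MvPolynomial (Fin 3) ℂ) := cre_injective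
  have f1 := (Submodule.equivMapOfInjective _ i1 (curves e n P)).finrank_eq
  have f2 := (Submodule.equivMapOfInjective _ i2 (curves e' n' (cconf τ P))).finrank_eq
  rw [f1, f2, hmap]

/-- nefness is preserved -/
theorem nef_moving (hP : Slice τ P) (hR : Refl τ e' n' e n) (hN : Nef e' n' (cconf τ P)) :
    Nef e n P := by
  intro δ μ F hF
  have hRs := hR.symm
  by_cases hs : ∃ s, Associated F (X s)
  · obtain ⟨s, hs⟩ := hs
    obtain ⟨h1, h2⟩ := curve_class_unique (curve_of_associated hF hs) (line_curve hP s)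
    have h3 := sum_mul_lmul (τ := τ) n s
    have h4 := hRs.coord s
    rw [h1, h2]
    omega
  · obtain ⟨δ', μ', F', hR', hF', -⟩ := curve_tr hP hF (fun s hs' => hs ⟨s, hs'⟩)
    have h1 := hN δ' μ' F' hF'
    have h2 := hRs.form hR'
    omega

/-- a nef class can be reflected -/
theorem exists_refl (hP : Slice τ P) (hN : Nef e' n' (cconf τ P)) :
    ∃ e n, Refl τ e' n' e n := by
  have key : ∀ s, ∑ t, n' (τ t) ≤ e' + n' (τ s) := by
    intro s
    have h1 := hN _ _ _ (line_curve (slice_cconf hP) s)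
    have h2 := sum_mul_lmul (τ := τ) n' s
    omega
  have k0 := key 0
  have k1 := key 1
  have k2 := key 2
  have hsum : ∑ t, n' (τ t) = n' (τ 0) + n' (τ 1) + n' (τ 2) := Fin.sum_univ_three _
  refine ⟨2 * e' - ∑ t, n' (τ t), cmul τ e' n', ?_, ?_, ?_⟩
  · omega
  · intro t
    have hk := key t
    have hc : cmul τ e' n' (τ t) = e' + n' (τ t) - ∑ t, n' (τ t) := by
      unfold cmul
      rw [if_pos ⟨t, rfl⟩]
    rw [hc]
    omega
  · intro l hl
    unfold cmul
    rw [if_neg hl]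

end Pool.Agent.Lib.MP_6b2d39_agCr
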