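import Pool.Agent.Lib.MP_6b2d39_agCr.Ord

open MvPolynomial

namespace Pool.Agent.Lib.MP_6b2d39_agCr

variable {h : ℕ} {κ : Type} [Fintype κ] {d : ℕ} {m : Fin h → ℕ} {P : Fin h → Fin 3 → ℂ}
  {N δ : κ → ℕ} {μ : κ → Fin h → ℕ} {F : κ → MvPolynomial (Fin 3) ℂ} {e : ℕ} {n : Fin h → ℕ}

private theorem sp_choose (a : ℕ) : 2 * ((a + 1).choose 2 : ℤ) = (a : ℤ) * (a + 1) := by
  have h1 : (a + 1) * a = (a + 1).choose 2 * 2 := by
    have := Nat.add_one_mul_choose_eq a 1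
    simpa using this
  have h2 : (((a + 1) * a : ℕ) : ℤ) = (((a + 1).choose 2 * 2 : ℕ) : ℤ) := by rw [h1]
  push_cast at h2
  linarith

private theorem sp_vd (d : ℕ) (m : Fin h → ℕ) :
    2 * vd d m = ((d : ℤ) + 1) * (d + 2) - ∑ i, (m i : ℤ) * (m i + 1) := by
  unfold vd
  have h1 := sp_choose (d + 1)
  push_cast at h1
  rw [mul_sub, Finset.mul_sum]
  have h2 : ∑ i, 2 * ((m i + 1).choose 2 : ℤ) = ∑ i, (m i : ℤ) * (m i + 1) :=
    Finset.sum_congr rfl (fun i _ => sp_choose (m i))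
  rw [h2]
  have h3 : (2 : ℤ) * ((d + 2).choose 2 : ℕ) = ((d : ℤ) + 1) * (d + 2) := by
    have : d + 2 = d + 1 + 1 := rfl
    rw [this]
    linarith
  linarith

private theorem sp_pair (hD : IsDec d m P N δ μ F e n) (j : κ) :
    ∑ l, (N l : ℤ) * ((∑ i, (μ l i : ℤ) * μ j i) - (δ l : ℤ) * δ j) = N j := by
  classical
  rw [Finset.sum_eq_single j]
  · have h1 := (hD.curve j).self
    have h2 : ((δ j ^ 2 + 1 : ℕ) : ℤ) = ((∑ i, μ j i ^ 2 : ℕ) : ℤ) := by rw [h1]
    push_cast at h2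
    have h3 : ∑ i, (μ j i : ℤ) * μ j i = ∑ i, (μ j i : ℤ) ^ 2 :=
      Finset.sum_congr rfl (fun i _ => by ring)
    rw [h3, ← h2]
    ring
  · intro l _ hl
    have h1 := hD.disj l j hl
    have h2 : ((δ l * δ j : ℕ) : ℤ) = ((∑ i, μ l i * μ j i : ℕ) : ℤ) := by rw [h1]
    push_cast at h2
    rw [h2]
    ring
  · intro hj
    exact absurd (Finset.mem_univ j) hj

private theorem sp_deg (hD : IsDec d m P N δ μ F e n) :
    (d : ℤ) = e + ∑ j, (N j : ℤ) * δ j := by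
  have h1 := hD.deg
  have h2 : (d : ℤ) = ((e + ∑ j, N j * δ j : ℕ) : ℤ) := by rw [← h1]
  push_cast at h2
  exact h2

private theorem sp_mul (hD : IsDec d m P N δ μ F e n) (i : Fin h) :
    (m i : ℤ) = n i + ∑ j, (N j : ℤ) * μ j i := by
  have h1 := hD.mul i
  have h2 : (m i : ℤ) = ((n i + ∑ j, N j * μ j i : ℕ) : ℤ) := by rw [← h1]
  push_cast at h2
  exact h2

private theorem sp_orth (hD : IsDec d m P N δ μ F e n) (j : κ) :
    (e : ℤ) * δ j = ∑ i, (n i : ℤ) * μ j i := by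
  have h1 := hD.orth j
  have h2 : ((e * δ j : ℕ) : ℤ) = ((∑ i, n i * μ j i : ℕ) : ℤ) := by rw [h1]
  push_cast at h2
  exact h2

private theorem sp_can (hD : IsDec d m P N δ μ F e n) (j : κ) :
    3 * (δ j : ℤ) = (∑ i, (μ j i : ℤ)) + 1 := by
  have h1 := (hD.curve j).can
  have h2 : ((3 * δ j : ℕ) : ℤ) = (((∑ i, μ j i) + 1 : ℕ) : ℤ) := by rw [h1]
  push_cast at h2
  exact h2

/-- intersection, over the integers -/
private theorem sp_inter (hD : IsDec d m P N δ μ F e n) (j : κ) :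
    (d : ℤ) * δ j + N j = ∑ i, (m i : ℤ) * μ j i := by
  have h1 := sp_pair hD j
  have h2 : ∑ l, (N l : ℤ) * ((∑ i, (μ l i : ℤ) * μ j i) - (δ l : ℤ) * δ j)
      = ∑ i, (∑ l, (N l : ℤ) * μ l i) * μ j i - (∑ l, (N l : ℤ) * δ l) * δ j := by
    have e1 : ∑ i, (∑ l, (N l : ℤ) * μ l i) * μ j i
        = ∑ l, (N l : ℤ) * ∑ i, (μ l i : ℤ) * μ j i := by
      simp only [Finset.sum_mul, Finset.mul_sum]
      rw [Finset.sum_comm]
      exact Finset.sum_congr rfl (fun l _ => Finset.sum_congr rfl (fun i _ => by ring))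
    rw [e1, Finset.sum_mul, ← Finset.sum_sub_distrib]
    exact Finset.sum_congr rfl (fun l _ => by ring)
  rw [h2] at h1
  have h3 : ∑ i, (m i : ℤ) * μ j i
      = ∑ i, (n i : ℤ) * μ j i + ∑ i, (∑ l, (N l : ℤ) * μ l i) * μ j i := by
    rw [← Finset.sum_add_distrib]
    exact Finset.sum_congr rfl (fun i _ => by rw [sp_mul hD i]; ring)
  rw [h3, ← sp_orth hD j, sp_deg hD]
  linarith

/-- the virtual dimension of a system with fixed (-1)-curves -/
theorem IsDec.vd_eq (hD : IsDec d m P N δ μ F e n) :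
    2 * vd d m + ∑ j, ((N j : ℤ) ^ 2 - N j) = 2 * vd e n := by
  rw [sp_vd, sp_vd]
  -- sum of the intersection numbers
  have hA : ∑ j, (N j : ℤ) * ((d : ℤ) * δ j + N j) = ∑ i, (m i : ℤ) * (m i - n i) := by
    have e1 : ∑ j, (N j : ℤ) * ((d : ℤ) * δ j + N j)
        = ∑ j, (N j : ℤ) * ∑ i, (m i : ℤ) * μ j i :=
      Finset.sum_congr rfl (fun j _ => by rw [sp_inter hD j])
    rw [e1]
    have e2 : ∑ i, (m i : ℤ) * (m i - n i) = ∑ i, (m i : ℤ) * ∑ j, (N j : ℤ) * μ j i :=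
      Finset.sum_congr rfl (fun i _ => by rw [sp_mul hD i]; ring)
    rw [e2]
    simp only [Finset.mul_sum]
    rw [Finset.sum_comm]
    exact Finset.sum_congr rfl (fun i _ => Finset.sum_congr rfl (fun j _ => by ring))
  have hB : ∑ j, (N j : ℤ) * ((e : ℤ) * δ j) = ∑ i, (n i : ℤ) * (m i - n i) := by
    have e1 : ∑ j, (N j : ℤ) * ((e : ℤ) * δ j)
        = ∑ j, (N j : ℤ) * ∑ i, (n i : ℤ) * μ j i :=
      Finset.sum_congr rfl (fun j _ => by rw [sp_orth hD j])
    rw [e1]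
    have e2 : ∑ i, (n i : ℤ) * (m i - n i) = ∑ i, (n i : ℤ) * ∑ j, (N j : ℤ) * μ j i :=
      Finset.sum_congr rfl (fun i _ => by rw [sp_mul hD i]; ring)
    rw [e2]
    simp only [Finset.mul_sum]
    rw [Finset.sum_comm]
    exact Finset.sum_congr rfl (fun i _ => Finset.sum_congr rfl (fun j _ => by ring))
  have hC : ∑ j, (N j : ℤ) * (3 * (δ j : ℤ)) = ∑ i, ((m i : ℤ) - n i) + ∑ j, (N j : ℤ) := by
    have e1 : ∑ j, (N j : ℤ) * (3 * (δ j : ℤ)) = ∑ j, (N j : ℤ) * ((∑ i, (μ j i : ℤ)) + 1) :=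
      Finset.sum_congr rfl (fun j _ => by rw [sp_can hD j])
    have e2 : ∑ i, ((m i : ℤ) - n i) = ∑ i, ∑ j, (N j : ℤ) * μ j i :=
      Finset.sum_congr rfl (fun i _ => by rw [sp_mul hD i]; ring)
    rw [e1, e2, Finset.sum_comm, ← Finset.sum_add_distrib]
    refine Finset.sum_congr rfl (fun j _ => ?_)
    rw [mul_add, Finset.mul_sum, mul_one]
  have hA' : ∑ j, (N j : ℤ) * ((d : ℤ) * δ j + N j)
      = d * (∑ j, (N j : ℤ) * δ j) + ∑ j, (N j : ℤ) ^ 2 := by
    rw [Finset.mul_sum, ← Finset.sum_add_distrib]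
    exact Finset.sum_congr rfl (fun j _ => by ring)
  have hB' : ∑ j, (N j : ℤ) * ((e : ℤ) * δ j) = e * (∑ j, (N j : ℤ) * δ j) := by
    rw [Finset.mul_sum]
    exact Finset.sum_congr rfl (fun j _ => by ring)
  have hC' : ∑ j, (N j : ℤ) * (3 * (δ j : ℤ)) = 3 * (∑ j, (N j : ℤ) * δ j) := by
    rw [Finset.mul_sum]
    exact Finset.sum_congr rfl (fun j _ => by ring)
  rw [hA'] at hA
  rw [hB'] at hB
  rw [hC'] at hC
  have hdeg := sp_deg hD
  have hS : ∑ i, (m i : ℤ) * (m i - n i) + ∑ i, (n i : ℤ) * (m i - n i) + ∑ i, ((m i : ℤ) - n i)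
      = ∑ i, (m i : ℤ) * (m i + 1) - ∑ i, (n i : ℤ) * (n i + 1) := by
    rw [← Finset.sum_add_distrib, ← Finset.sum_add_distrib, ← Finset.sum_sub_distrib]
    exact Finset.sum_congr rfl (fun i _ => by ring)
  have hT : ∑ j, ((N j : ℤ) ^ 2 - N j) = ∑ j, (N j : ℤ) ^ 2 - ∑ j, (N j : ℤ) :=
    Finset.sum_sub_distrib _ _
  rw [hT]
  set S := ∑ j, (N j : ℤ) * δ j with hSdef
  have hS2 : S = d - e := by linarith
  rw [hS2] at hA hB hC
  nlinarith [hA, hB, hC, hS]

theorem IsDec.sys_iff (hD : IsDec d m P N δ μ F e n) (H : MvPolynomial (Fin 3) ℂ) :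
    H ∈ curves d m P ↔ ∃ G ∈ curves e n P, H = (∏ j, F j ^ N j) * G := by
  constructor
  · exact hD.sys H
  · rintro ⟨G, hG, rfl⟩
    rw [mem_curves] at hG ⊢
    obtain ⟨hG1, hG2⟩ := hG
    refine ⟨?_, fun i => ?_⟩
    · have h1 : (∏ j, F j ^ N j).IsHomogeneous (∑ j, δ j * N j) :=
        MvPolynomial.IsHomogeneous.prod _ _ _ (fun j _ => ((hD.curve j).hom).pow (N j))
      have h2 := h1.mul hG1
      have h3 : ∑ j, δ j * N j + e = d := by
        rw [hD.deg, add_comm]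
        congr 1
        exact Finset.sum_congr rfl (fun j _ => by ring)
      rwa [h3] at h2
    · have h1 := van_prod (v := P i) N (fun j => μ j i) F (fun j => ((hD.curve j).mult i).1)
      have h2 := van_mul h1 (hG2 i)
      rwa [add_comm, ← hD.mul i] at h2

theorem IsDec.finrank_eq (hD : IsDec d m P N δ μ F e n) :
    Module.finrank ℂ (curves d m P) = Module.finrank ℂ (curves e n P) := by
  have hne : (∏ j, F j ^ N j) ≠ 0 :=
    Finset.prod_ne_zero_iff.mpr (fun j _ => pow_ne_zero _ (hD.curve j).irr.ne_zero)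
  let L : curves e n P →ₗ[ℂ] curves d m P :=
    LinearMap.codRestrict (curves d m P)
      ((LinearMap.mulLeft ℂ (∏ j, F j ^ N j)).comp (curves e n P).subtype)
      (fun G => (hD.sys_iff _).mpr ⟨G.1, G.2, rfl⟩)
  have hinj : Function.Injective L := by
    intro G1 G2 hG
    have h1 : (∏ j, F j ^ N j) * G1.1 = (∏ j, F j ^ N j) * G2.1 := congrArg Subtype.val hG
    exact Subtype.ext (mul_left_cancel₀ hne h1)
  have hsurj : Function.Surjective L := by
    intro H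
    obtain ⟨G, hG, hH⟩ := hD.sys H.1 H.2
    exact ⟨⟨G, hG⟩, Subtype.ext hH.symm⟩
  exact (LinearEquiv.ofBijective L ⟨hinj, hsurj⟩).finrank_eq.symm

/-- intersection of the system with one of its fixed curves -/
theorem IsDec.inter (hD : IsDec d m P N δ μ F e n) (j : κ) :
    d * δ j + N j = ∑ i, m i * μ j i := by
  have h1 := sp_inter hD j
  exact_mod_cast h1

theorem special_of_dec (hD : Dec d m P) (hs : IsSpecial d m P) : IsMinusOneSpecial d m P := by
  rcases hD with h0 | ⟨κ, hκ, N, δ, μ, F, e, n, hD, -, hpos, hrk⟩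
  · exfalso
    unfold IsSpecial at hs
    rw [h0, finrank_bot] at hs
    have := le_max_right (vd d m) 0
    push_cast at hs
    omega
  · unfold IsSpecial at hs
    rw [hD.finrank_eq, hrk] at hs
    have h1 : vd d m < vd e n := lt_of_le_of_lt (le_max_left _ _) hs
    have h2 := hD.vd_eq
    have h3 : 0 < ∑ j, ((N j : ℤ) ^ 2 - N j) := by linarith
    have h4 : ∃ j, 2 ≤ N j := by
      by_contra hcon
      push Not at hcon
      have h5 : ∑ j, ((N j : ℤ) ^ 2 - N j) = 0 := by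
        apply Finset.sum_eq_zero
        intro j _
        have h6 : N j = 1 := by
          have := hD.one j
          have := hcon j
          omega
        rw [h6]
        norm_num
      omega
    let ε := Fintype.equivFin κ
    obtain ⟨j0, hj0⟩ := h4
    refine ⟨Fintype.card κ, N ∘ ε.symm, δ ∘ ε.symm, μ ∘ ε.symm, F ∘ ε.symm, e, n,
      fun j => hD.one _, ⟨ε j0, by simpa using hj0⟩, fun j => hD.curve _, ?_, ?_, ?_, ?_, hpos, ?_⟩
    · intro j l hjl
      exact hD.disj _ _ (fun hh => hjl (ε.symm.injective hh))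
    · rw [hD.deg]
      congr 1
      exact (Equiv.sum_comp ε.symm (fun j => N j * δ j)).symm
    · intro i
      rw [hD.mul i]
      congr 1
      exact (Equiv.sum_comp ε.symm (fun j => N j * μ j i)).symm
    · intro j
      exact hD.orth _
    · intro H
      rw [hD.sys_iff H]
      have h5 : ∏ j, (F ∘ ε.symm) j ^ (N ∘ ε.symm) j = ∏ j, F j ^ N j :=
        Equiv.prod_comp ε.symm (fun j => F j ^ N j)
      rw [h5]

theorem special_of_minusOne (hlow : ∀ (e : ℕ) (n : Fin h → ℕ),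
    vd e n ≤ (Module.finrank ℂ (curves e n P) : ℤ)) (hs : IsMinusOneSpecial d m P) :
    IsSpecial d m P := by
  obtain ⟨k, N, δ, μ, F, e, n, h1, ⟨j0, hj0⟩, h3, h4, h5, h6, h7, h8, h9⟩ := hs
  have hD : IsDec d m P N δ μ F e n := ⟨h1, h3, h4, h5, h6, h7, fun H hH => (h9 H).mp hH⟩
  unfold IsSpecial
  rw [hD.finrank_eq]
  have h10 := hlow e n
  have h11 := hD.vd_eq
  have h12 : 0 < ∑ j, ((N j : ℤ) ^ 2 - N j) := by
    apply Finset.sum_pos'
    · intro j _
      have : (1 : ℤ) ≤ N j := by exact_mod_cast h1 j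
      nlinarith
    · refine ⟨j0, Finset.mem_univ _, ?_⟩
      have : (2 : ℤ) ≤ N j0 := by exact_mod_cast hj0
      nlinarith
  rw [max_lt_iff]
  constructor <;> linarith

end Pool.Agent.Lib.MP_6b2d39_agCr
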