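import Pool.Agent.Lib.MP_6b2d39_agCr.StepArith
import Pool.Agent.Lib.MP_6b2d39_agCr.Special
import Pool.Agent.Lib.MP_6b2d39_agCr.Cre

open MvPolynomial

namespace Pool.Agent.Lib.MP_6b2d39_agCr

/-- no fixed curve of the transformed system is a side of the triangle -/
theorem no_line {h : ℕ} {τ : Fin 3 ↪ Fin h} {P : Fin h → Fin 3 → ℂ} {d : ℕ} {m : Fin h → ℕ}
    (hP : Slice τ P) (hS : ∑ t, m (τ t) ≤ 2 * d) (hd : ∀ t, m (τ t) ≤ d) {κ : Type} [Fintype κ]
    {N δ : κ → ℕ} {μ : κ → Fin h → ℕ} {F : κ → MvPolynomial (Fin 3) ℂ} {e : ℕ} {n : Fin h → ℕ}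
    (hD : IsDec (2 * d - ∑ t, m (τ t)) (cmul τ d m) (cconf τ P) N δ μ F e n) (j : κ) (s : Fin 3) :
    ¬ Associated (F j) (X s) := by
  intro hass
  have h1 : IsMinusOneCurve (cconf τ P) (δ j) (μ j) (X s) :=
    curve_of_associated (hD.curve j) hass
  have h2 : IsMinusOneCurve (cconf τ P) 1 (lmul τ s) (X s) := line_curve (slice_cconf hP) s
  obtain ⟨h3, h4⟩ := curve_class_unique h1 h2
  have h5 := hD.inter j
  rw [h3, h4, mul_one] at h5
  have h6 := sum_mul_lmul (τ := τ) (cmul τ d m) s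
  have h7 := step_coord hS hd s
  have h8 := spl_le hS hd s
  have h9 := hD.one j
  omega

end Pool.Agent.Lib.MP_6b2d39_agCr
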