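import Pool.Agent.Lib.MP_6b2d39_agCr.Gen
import Pool.Agent.Lib.MP_6b2d39_agCr.Cre

open MvPolynomial

namespace Pool.Agent.Lib.MP_6b2d39_agCr

/-- invariance under linear coordinate changes and rescaling of the homogeneous coordinates -/
def Inv {h : ℕ} (Q : (Fin h → Fin 3 → ℂ) → Prop) : Prop :=
  ∀ (A : Matrix (Fin 3) (Fin 3) ℂ) (c : Fin h → ℂ) (P : Fin h → Fin 3 → ℂ), A.det ≠ 0 →
    (∀ l, c l ≠ 0) → Q P → Q (fun l => c l • A.mulVec (P l))

/-- matrix with the triangle points as columns -/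
def sgB {h : ℕ} (τ : Fin 3 ↪ Fin h) (P : Fin h → Fin 3 → ℂ) : Matrix (Fin 3) (Fin 3) ℂ :=
  Matrix.of fun i t => P (τ t) i

/-- its generic version -/
noncomputable def sgBp {h : ℕ} (τ : Fin 3 ↪ Fin h) :
    Matrix (Fin 3) (Fin 3) (MvPolynomial (Fin h × Fin 3) ℂ) :=
  Matrix.of fun i t => X (τ t, i)

/-- normalised configuration -/
noncomputable def sgN {h : ℕ} (τ : Fin 3 ↪ Fin h) (P : Fin h → Fin 3 → ℂ) : Fin h → Fin 3 → ℂ :=
  fun l => if ∃ t, τ t = l then (fun i => if τ i = l then 1 else 0)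
    else (sgB τ P).adjugate.mulVec (P l)

/-- its generic version -/
noncomputable def sgNp {h : ℕ} (τ : Fin 3 ↪ Fin h) (q : Fin h × Fin 3) :
    MvPolynomial (Fin h × Fin 3) ℂ :=
  if ∃ t, τ t = q.1 then (if τ q.2 = q.1 then 1 else 0)
    else (sgBp τ).adjugate.mulVec (fun i => X (q.1, i)) q.2

theorem sgBp_map {h : ℕ} (τ : Fin 3 ↪ Fin h) (P : Fin h → Fin 3 → ℂ) :
    (eval (fun q : Fin h × Fin 3 => P q.1 q.2)).mapMatrix (sgBp τ) = sgB τ P := by
  ext i t
  simp [sgBp, sgB]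

theorem sgBp_det {h : ℕ} (τ : Fin 3 ↪ Fin h) (P : Fin h → Fin 3 → ℂ) :
    eval (fun q : Fin h × Fin 3 => P q.1 q.2) (sgBp τ).det = (sgB τ P).det := by
  rw [← sgBp_map, RingHom.map_det]

theorem sgNp_eval {h : ℕ} (τ : Fin 3 ↪ Fin h) (P : Fin h → Fin 3 → ℂ) (q : Fin h × Fin 3) :
    eval (fun q : Fin h × Fin 3 => P q.1 q.2) (sgNp τ q) = sgN τ P q.1 q.2 := by
  unfold sgNp sgN
  by_cases hq : ∃ t, τ t = q.1
  · rw [if_pos hq, if_pos hq]
    by_cases h1 : τ q.2 = q.1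
    · rw [if_pos h1, if_pos h1, map_one]
    · rw [if_neg h1, if_neg h1, map_zero]
  · rw [if_neg hq, if_neg hq, ← sgBp_map, ← RingHom.map_adjugate]
    simp only [Matrix.mulVec, dotProduct, map_sum, map_mul, eval_X, RingHom.mapMatrix_apply,
      Matrix.map_apply]

/-- the product of the determinant and the coordinates off the triangle -/
noncomputable def sgD {h : ℕ} (τ : Fin 3 ↪ Fin h) : MvPolynomial (Fin h × Fin 3) ℂ :=
  (sgBp τ).det * ∏ l, if (∃ t, τ t = l) then 1 else ∏ i, sgNp τ (l, i)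

theorem sg_coord {h : ℕ} (τ : Fin 3 ↪ Fin h) (t : Fin 3) :
    (fun i => if τ i = τ t then (1 : ℂ) else 0) = Pi.single t 1 := by
  ext i
  by_cases hi : i = t
  · subst hi; simp
  · rw [if_neg (fun h => hi (τ.injective h)), Pi.single_eq_of_ne hi]

theorem sgD_slice {h : ℕ} {τ : Fin 3 ↪ Fin h} {P : Fin h → Fin 3 → ℂ}
    (hP : eval (fun q : Fin h × Fin 3 => P q.1 q.2) (sgD τ) ≠ 0) :
    (sgB τ P).det ≠ 0 ∧ Slice τ (sgN τ P) := by
  unfold sgD at hP
  rw [map_mul, sgBp_det] at hP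
  refine ⟨left_ne_zero_of_mul hP, ⟨fun t => ?_, fun l hl t => ?_⟩⟩
  · unfold sgN
    rw [if_pos ⟨t, rfl⟩, sg_coord]
  · have h2 := right_ne_zero_of_mul hP
    rw [map_prod] at h2
    have h3 := Finset.prod_ne_zero_iff.1 h2 l (Finset.mem_univ _)
    rw [if_neg hl, map_prod] at h3
    have h4 := Finset.prod_ne_zero_iff.1 h3 t (Finset.mem_univ _)
    rwa [sgNp_eval] at h4

theorem sgB_slice {h : ℕ} {τ : Fin 3 ↪ Fin h} {P : Fin h → Fin 3 → ℂ} (hP : Slice τ P) :
    sgB τ P = 1 := by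
  ext i t
  simp only [sgB, Matrix.of_apply]
  rw [hP.coord t, Matrix.one_apply, Pi.single_apply]

theorem sgN_slice {h : ℕ} {τ : Fin 3 ↪ Fin h} {P : Fin h → Fin 3 → ℂ} (hP : Slice τ P) :
    sgN τ P = P := by
  funext l
  unfold sgN
  by_cases hl : ∃ t, τ t = l
  · obtain ⟨t, rfl⟩ := hl
    rw [if_pos ⟨t, rfl⟩, sg_coord, hP.coord t]
  · rw [if_neg hl, sgB_slice hP, Matrix.adjugate_one, Matrix.one_mulVec]

theorem sgD_eval_slice {h : ℕ} {τ : Fin 3 ↪ Fin h} {P : Fin h → Fin 3 → ℂ} (hP : Slice τ P) :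
    eval (fun q : Fin h × Fin 3 => P q.1 q.2) (sgD τ) ≠ 0 := by
  unfold sgD
  rw [map_mul, sgBp_det, sgB_slice hP, Matrix.det_one, one_mul, map_prod]
  refine Finset.prod_ne_zero_iff.2 (fun l _ => ?_)
  by_cases hl : ∃ t, τ t = l
  · rw [if_pos hl, map_one]
    exact one_ne_zero
  · rw [if_neg hl, map_prod]
    refine Finset.prod_ne_zero_iff.2 (fun i _ => ?_)
    rw [sgNp_eval, sgN_slice hP]
    exact hP.off l hl i

theorem sgD_ne_zero {h : ℕ} (τ : Fin 3 ↪ Fin h) : sgD τ ≠ 0 := by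
  intro h0
  have hS : Slice τ (fun l => if ∃ t, τ t = l then (fun i => if τ i = l then (1 : ℂ) else 0)
      else fun _ => 1) := by
    refine ⟨fun t => ?_, fun l hl t => ?_⟩
    · rw [if_pos ⟨t, rfl⟩, sg_coord]
    · rw [if_neg hl]
      exact one_ne_zero
  have := sgD_eval_slice hS
  rw [h0, map_zero] at this
  exact this rfl

theorem sg_exists {h : ℕ} {Φ : MvPolynomial (Fin h × Fin 3) ℂ} (hΦ : Φ ≠ 0) :
    ∃ P : Fin h → Fin 3 → ℂ, eval (fun q => P q.1 q.2) Φ ≠ 0 := by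
  by_contra hcon
  push Not at hcon
  apply hΦ
  apply MvPolynomial.funext
  intro x
  rw [map_zero]
  exact hcon (fun i t => x (i, t))

theorem sgB_mulVec_coord {h : ℕ} (τ : Fin 3 ↪ Fin h) (P : Fin h → Fin 3 → ℂ) (t : Fin 3) :
    (sgB τ P).mulVec (Pi.single t 1) = P (τ t) := by
  rw [Matrix.mulVec_single_one]
  rfl

theorem sgB_mulVec_off {h : ℕ} {τ : Fin 3 ↪ Fin h} (P : Fin h → Fin 3 → ℂ) {l : Fin h}
    (hl : ¬ ∃ t, τ t = l) : (sgB τ P).mulVec (sgN τ P l) = (sgB τ P).det • P l := by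
  unfold sgN
  rw [if_neg hl, Matrix.mulVec_mulVec, Matrix.mul_adjugate, Matrix.smul_mulVec, Matrix.one_mulVec]

theorem cpt_smul (c : ℂ) (v : Fin 3 → ℂ) : cpt (c • v) = c ^ 2 • cpt v := by
  funext t
  simp only [cpt, Pi.smul_apply, smul_eq_mul]
  rw [Finset.prod_mul_distrib, Finset.prod_const, Finset.card_erase_of_mem (Finset.mem_univ _)]
  simp

/-- an invariant property that holds for general points holds for general points in the slice,
transformed by the quadratic map -/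
theorem exists_slice_poly {h : ℕ} (τ : Fin 3 ↪ Fin h) {Q' : (Fin h → Fin 3 → ℂ) → Prop}
    (hinv : Inv Q') (hQ' : General Q') :
    ∃ Ψ : MvPolynomial (Fin h × Fin 3) ℂ,
      (∃ P, Slice τ P ∧ eval (fun q => P q.1 q.2) Ψ ≠ 0) ∧
        ∀ P, Slice τ P → eval (fun q => P q.1 q.2) Ψ ≠ 0 → Q' (cconf τ P) := by
  obtain ⟨Φ, hΦ, hQ⟩ := hQ'
  obtain ⟨P₀, hP₀⟩ := sg_exists (mul_ne_zero hΦ (sgD_ne_zero τ))
  rw [map_mul] at hP₀
  have hΦ0 := left_ne_zero_of_mul hP₀
  obtain ⟨hdet, hsl⟩ := sgD_slice (right_ne_zero_of_mul hP₀)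
  set A := sgB τ P₀ with hA
  -- the polynomial
  let cp : Fin h → Fin 3 → MvPolynomial (Fin h × Fin 3) ℂ := fun l t =>
    if ∃ s, τ s = l then X (l, t) else ∏ s ∈ Finset.univ.erase t, X (l, s)
  have hcp : ∀ (P : Fin h → Fin 3 → ℂ) (l : Fin h) (t : Fin 3),
      eval (fun q : Fin h × Fin 3 => P q.1 q.2) (cp l t) = cconf τ P l t := by
    intro P l t
    simp only [cp, cconf]
    by_cases hl : ∃ s, τ s = l
    · rw [if_pos hl, if_pos hl, eval_X]
    · rw [if_neg hl, if_neg hl, map_prod]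
      simp only [eval_X]
      rfl
  let Ψ : MvPolynomial (Fin h × Fin 3) ℂ :=
    aeval (fun q : Fin h × Fin 3 => ∑ j, C (A q.2 j) * cp q.1 j) Φ
  have hΨ : ∀ P : Fin h → Fin 3 → ℂ, eval (fun q : Fin h × Fin 3 => P q.1 q.2) Ψ =
      eval (fun q : Fin h × Fin 3 => A.mulVec (cconf τ P q.1) q.2) Φ := by
    intro P
    simp only [Ψ]
    rw [aeval_def, ← coe_eval₂Hom, ← RingHom.comp_apply]
    congr 1
    apply MvPolynomial.ringHom_ext
    · intro r
      simp [algebraMap_eq]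
    · intro q
      simp only [RingHom.comp_apply, coe_eval₂Hom, eval₂_X, map_sum, map_mul, eval_C, eval_X,
        hcp, Matrix.mulVec, dotProduct]
  refine ⟨Ψ, ?_, ?_⟩
  · -- the slice point
    have hc : ∀ l, ∃ c : ℂ, c ^ 2 = ((∏ t, sgN τ P₀ l t) * A.det)⁻¹ := fun l =>
      IsAlgClosed.exists_pow_nat_eq _ (by norm_num)
    choose c hc using hc
    let P₁ : Fin h → Fin 3 → ℂ := fun l =>
      if ∃ t, τ t = l then (fun i => if τ i = l then 1 else 0) else c l • cpt (sgN τ P₀ l)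
    have hP₁c : ∀ t, P₁ (τ t) = Pi.single t 1 := by
      intro t
      simp only [P₁]
      rw [if_pos ⟨t, rfl⟩, sg_coord]
    have hP₁o : ∀ l, (¬ ∃ t, τ t = l) → P₁ l = c l • cpt (sgN τ P₀ l) := by
      intro l hl
      simp only [P₁]
      rw [if_neg hl]
    have hprod : ∀ l, (¬ ∃ t, τ t = l) → (∏ t, sgN τ P₀ l t) * A.det ≠ 0 := by
      intro l hl
      exact mul_ne_zero (Finset.prod_ne_zero_iff.2 fun t _ => hsl.off l hl t) hdet
    have hc0 : ∀ l, (¬ ∃ t, τ t = l) → c l ≠ 0 := by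
      intro l hl h0
      have := hc l
      rw [h0] at this
      have h2 := inv_ne_zero (hprod l hl)
      rw [← this] at h2
      exact h2 (by norm_num)
    have hS : Slice τ P₁ := by
      refine ⟨hP₁c, fun l hl t => ?_⟩
      rw [hP₁o l hl]
      exact mul_ne_zero (hc0 l hl) (cpt_ne_zero (hsl.off l hl) t)
    refine ⟨P₁, hS, ?_⟩
    rw [hΨ]
    have key : ∀ l, A.mulVec (cconf τ P₁ l) = P₀ l := by
      intro l
      by_cases hl : ∃ t, τ t = l
      · obtain ⟨t, rfl⟩ := hl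
        have : cconf τ P₁ (τ t) = P₁ (τ t) := by
          simp only [cconf]
          rw [if_pos ⟨t, rfl⟩]
        rw [this, hP₁c, hA, sgB_mulVec_coord]
      · have : cconf τ P₁ l = cpt (P₁ l) := by
          simp only [cconf]
          rw [if_neg hl]
        rw [this, hP₁o l hl, cpt_smul, cpt_cpt, Matrix.mulVec_smul, Matrix.mulVec_smul, hA,
          sgB_mulVec_off P₀ hl, smul_smul, smul_smul, hc l, ← hA]
        rw [mul_assoc, inv_mul_cancel₀ (hprod l hl), one_smul]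
    have : (fun q : Fin h × Fin 3 => A.mulVec (cconf τ P₁ q.1) q.2) = fun q => P₀ q.1 q.2 := by
      funext q
      rw [key]
    rw [this]
    exact hΦ0
  · intro P _ hP
    rw [hΨ] at hP
    have h1 := hQ (fun l => A.mulVec (cconf τ P l)) hP
    have hAu : IsUnit A.det := isUnit_iff_ne_zero.2 hdet
    have h2 := hinv A⁻¹ (fun _ => 1) _ (by
      rw [Matrix.det_nonsing_inv]
      simpa using hdet) (fun _ => one_ne_zero) h1
    have h3 : (fun l => (1 : ℂ) • A⁻¹.mulVec (A.mulVec (cconf τ P l))) = cconf τ P := by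
      funext l
      rw [Matrix.mulVec_mulVec, Matrix.nonsing_inv_mul _ hAu, Matrix.one_mulVec, one_smul]
    rwa [h3] at h2

/-- a property that holds for general points in the slice holds for general points -/
theorem general_of_slice {h : ℕ} (τ : Fin 3 ↪ Fin h) {Q : (Fin h → Fin 3 → ℂ) → Prop}
    (hinv : Inv Q) (Ψ : MvPolynomial (Fin h × Fin 3) ℂ)
    (hΨ : ∃ P, Slice τ P ∧ eval (fun q => P q.1 q.2) Ψ ≠ 0)
    (hQ : ∀ P, Slice τ P → eval (fun q => P q.1 q.2) Ψ ≠ 0 → Q P) : General Q := by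
  have hev : ∀ P : Fin h → Fin 3 → ℂ, eval (fun q : Fin h × Fin 3 => P q.1 q.2)
      (aeval (sgNp τ) Ψ) = eval (fun q : Fin h × Fin 3 => sgN τ P q.1 q.2) Ψ := by
    intro P
    rw [aeval_def, ← coe_eval₂Hom, ← RingHom.comp_apply]
    congr 1
    apply MvPolynomial.ringHom_ext
    · intro r
      simp [algebraMap_eq]
    · intro q
      simp only [RingHom.comp_apply, coe_eval₂Hom, eval₂_X, eval_X, sgNp_eval]
  refine ⟨sgD τ * aeval (sgNp τ) Ψ, ?_, ?_⟩
  · intro h0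
    obtain ⟨P, hP, hne⟩ := hΨ
    have h1 : eval (fun q : Fin h × Fin 3 => P q.1 q.2) (sgD τ * aeval (sgNp τ) Ψ) = 0 := by
      rw [h0, map_zero]
    rw [map_mul, hev, sgN_slice hP] at h1
    exact mul_ne_zero (sgD_eval_slice hP) hne h1
  · intro P hP
    rw [map_mul, hev] at hP
    obtain ⟨hdet, hsl⟩ := sgD_slice (left_ne_zero_of_mul hP)
    have h1 := hQ (sgN τ P) hsl (right_ne_zero_of_mul hP)
    have h2 := hinv (sgB τ P) (fun l => if ∃ t, τ t = l then 1 else (sgB τ P).det⁻¹) _ hdet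
      (fun l => by
        show (if ∃ t, τ t = l then (1 : ℂ) else (sgB τ P).det⁻¹) ≠ 0
        by_cases hl : ∃ t, τ t = l
        · rw [if_pos hl]
          exact one_ne_zero
        · rw [if_neg hl]
          exact inv_ne_zero hdet) h1
    have h3 : (fun l => (if ∃ t, τ t = l then (1 : ℂ) else (sgB τ P).det⁻¹) •
        (sgB τ P).mulVec (sgN τ P l)) = P := by
      funext l
      by_cases hl : ∃ t, τ t = l
      · obtain ⟨t, rfl⟩ := hl
        rw [if_pos ⟨t, rfl⟩, hsl.coord t, sgB_mulVec_coord, one_smul]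
      · rw [if_neg hl, sgB_mulVec_off P hl, smul_smul, inv_mul_cancel₀ hdet, one_smul]
    rwa [h3] at h2

theorem general_slice {h : ℕ} (τ : Fin 3 ↪ Fin h) {Q Q' : (Fin h → Fin 3 → ℂ) → Prop}
    (hinv : Inv Q) (hinv' : Inv Q') (hstep : ∀ P, Slice τ P → Q' (cconf τ P) → Q P)
    (hQ' : General Q') : General Q := by
  obtain ⟨Ψ, h1, h2⟩ := exists_slice_poly τ hinv' hQ'
  exact general_of_slice τ hinv Ψ h1 (fun P hP h3 => hstep P hP (h2 P hP h3))

end Pool.Agent.Lib.MP_6b2d39_agCr
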