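import Pool.Agent.Lib.MP_6b2d39_agCr.Moving
import Pool.Agent.Lib.MP_6b2d39_agCr.NoLine

open MvPolynomial

namespace Pool.Agent.Lib.MP_6b2d39_agCr

variable {h : ℕ} {τ : Fin 3 ↪ Fin h} {P : Fin h → Fin 3 → ℂ} {d : ℕ} {m : Fin h → ℕ}

/-- a sum over the sides that split off -/
theorem sum_split (s f : Fin 3 → ℕ) (hf : ∀ t, s t = 0 → f t = 0) :
    ∑ t : {t : Fin 3 // 0 < s t}, f t.1 = ∑ t, f t := by
  rw [← Finset.sum_subtype (Finset.univ.filter fun t => 0 < s t) (by simp) f]
  rw [Finset.sum_filter]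
  apply Finset.sum_congr rfl
  intro t _
  split_ifs with h
  · rfl
  · rw [hf t (by omega)]

/-- a product over the sides that split off -/
theorem prod_split (s : Fin 3 → ℕ) :
    ∏ t : {t : Fin 3 // 0 < s t}, (X t.1 : MvPolynomial (Fin 3) ℂ) ^ s t.1 = mon3 s := by
  rw [← Finset.prod_subtype (Finset.univ.filter fun t => 0 < s t) (by simp)
    (fun t => (X t : MvPolynomial (Fin 3) ℂ) ^ s t)]
  rw [Finset.prod_filter]
  unfold mon3
  apply Finset.prod_congr rfl
  intro t _
  split_ifs with h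
  · rfl
  · have : s t = 0 := by omega
    rw [this, pow_zero]

/-- the product of the transformed curves and the transformed residual member -/
theorem cre_prod {κ : Type} [Fintype κ] (N : κ → ℕ) (a : κ → Fin 3 → ℕ)
    (F F' : κ → MvPolynomial (Fin 3) ℂ) (hF : ∀ j, mon3 (a j) * F j = cre (F' j))
    (b : Fin 3 → ℕ) (G H : MvPolynomial (Fin 3) ℂ) (hG : mon3 b * H = cre G) :
    mon3 (fun t => b t + ∑ j, N j * a j t) * ((∏ j, F j ^ N j) * H) =
      cre ((∏ j, F' j ^ N j) * G) := by
  rw [map_mul, map_prod, ← hG, ← mon3_mul, ← mon3_prod]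
  have h1 : ∏ j, cre (F' j ^ N j) = (∏ j, mon3 (a j) ^ N j) * ∏ j, F j ^ N j := by
    rw [← Finset.prod_mul_distrib]
    apply Finset.prod_congr rfl
    intro j _
    rw [map_pow, ← hF, mul_pow]
  rw [h1]
  ring

/-- a decomposition of the transformed system gives a decomposition of the system: the index type
of the new family is the old one together with the sides that split off -/
theorem isDec_step (hP : Slice τ P) (hS : ∑ t, m (τ t) ≤ 2 * d) (hd : ∀ t, m (τ t) ≤ d)
    {κ : Type} [Fintype κ] {N' δ' : κ → ℕ} {μ' : κ → Fin h → ℕ}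
    {F' : κ → MvPolynomial (Fin 3) ℂ} {e' : ℕ} {n' : Fin h → ℕ}
    (hD : IsDec (2 * d - ∑ t, m (τ t)) (cmul τ d m) (cconf τ P) N' δ' μ' F' e' n')
    (δ : κ → ℕ) (μ : κ → Fin h → ℕ) (F : κ → MvPolynomial (Fin 3) ℂ)
    (hRj : ∀ j, Refl τ (δ' j) (μ' j) (δ j) (μ j)) (hcj : ∀ j, IsMinusOneCurve P (δ j) (μ j) (F j))
    (hFj : ∀ j, mon3 (fun t => μ' j (τ t)) * F j = cre (F' j))
    {e : ℕ} {n : Fin h → ℕ} (hR : Refl τ e' n' e n) :
    IsDec (κ := κ ⊕ {t : Fin 3 // 0 < spl τ d m t}) d m P
      (Sum.elim N' (fun t => spl τ d m t.1)) (Sum.elim δ (fun _ => 1))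
      (Sum.elim μ (fun t => lmul τ t.1)) (Sum.elim F (fun t => X t.1)) e n := by
  -- the multiplicities at the opposite vertex of a split side vanish
  have hz : ∀ t, 0 < spl τ d m t → n' (τ t) = 0 ∧ ∀ j, μ' j (τ t) = 0 := by
    intro t ht
    have h1 := hD.mul (τ t)
    rw [cmul_eq_zero ht] at h1
    refine ⟨by omega, fun j => ?_⟩
    have h2 : ∑ j, N' j * μ' j (τ t) = 0 := by omega
    rw [Finset.sum_eq_zero_iff] at h2
    have h3 := h2 j (Finset.mem_univ j)
    have h4 := hD.one j
    rcases Nat.mul_eq_zero.1 h3 with h5 | h5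
    · omega
    · exact h5
  -- intersection with a split side
  have hside : ∀ (a b a' : ℕ) (x x' : Fin h → ℕ) (t : Fin 3), Refl τ a' x' a x → x' (τ t) = 0 →
      a = ∑ l, x l * lmul τ t l := by
    intro a b a' x x' t hr h0
    have h1 := hr.side t
    have h2 := sum_mul_lmul (τ := τ) x t
    omega
  have hsplit : ∀ (f : Fin 3 → ℕ), ∑ t : {t : Fin 3 // 0 < spl τ d m t}, spl τ d m t.1 * f t.1 =
      ∑ t, spl τ d m t * f t := by
    intro f
    apply sum_split (spl τ d m) (fun t => spl τ d m t * f t)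
    intro t ht
    rw [ht, zero_mul]
  refine ⟨?_, ?_, ?_, ?_, ?_, ?_, ?_⟩
  · -- one
    rintro (j | t)
    · exact hD.one j
    · exact t.2
  · -- curve
    rintro (j | t)
    · exact hcj j
    · exact line_curve hP t.1
  · -- disj
    rintro (i | s) (j | t) hij
    · have h1 := (hRj i).form (hRj j)
      have h2 := hD.disj i j (fun e => hij (by rw [e]))
      simp only [Sum.elim_inl]
      omega
    · simp only [Sum.elim_inl, Sum.elim_inr, mul_one]
      exact hside _ 0 _ _ _ _ (hRj i) ((hz t.1 t.2).2 i)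
    · simp only [Sum.elim_inl, Sum.elim_inr, one_mul]
      rw [Finset.sum_congr rfl (fun l _ => mul_comm (lmul τ s.1 l) (μ j l))]
      exact hside _ 0 _ _ _ _ (hRj j) ((hz s.1 s.2).2 j)
    · simp only [Sum.elim_inr, mul_one]
      have hst : s.1 ≠ t.1 := fun e => hij (by rw [Subtype.ext e])
      have h1 := sum_mul_lmul (τ := τ) (lmul τ s.1) t.1
      have h2 : lmul τ s.1 (τ t.1) = 1 := by rw [lmul_apply, if_neg (Ne.symm hst)]
      have h3 : ∑ r, lmul τ s.1 (τ r) = 2 := by
        simp only [lmul_apply]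
        generalize s.1 = s'
        fin_cases s' <;> rfl
      omega
  · -- deg
    rw [Fintype.sum_sum_type]
    simp only [Sum.elim_inl, Sum.elim_inr]
    rw [hsplit (fun _ => 1)]
    simp only [mul_one]
    have h1 := step_deg hS hd
    have h2 := hD.deg
    have h3 := hR.deg
    have h4 : ∑ t, cmul τ d m (τ t) = ∑ t, n' (τ t) + ∑ j, N' j * ∑ t, μ' j (τ t) := by
      simp only [hD.mul, Finset.sum_add_distrib, Finset.mul_sum]
      congr 1
      exact Finset.sum_comm
    have h5 : ∑ j, N' j * δ j + ∑ j, N' j * ∑ t, μ' j (τ t) = 2 * ∑ j, N' j * δ' j := by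
      rw [← Finset.sum_add_distrib, Finset.mul_sum]
      apply Finset.sum_congr rfl
      intro j _
      have h6 := (hRj j).deg
      rw [← mul_add, h6]
      ring
    omega
  · -- mul
    intro i
    rw [Fintype.sum_sum_type]
    simp only [Sum.elim_inl, Sum.elim_inr]
    rw [hsplit (fun t => lmul τ t i)]
    by_cases hi : ∃ t, τ t = i
    · obtain ⟨t, rfl⟩ := hi
      have h1 := step_coord hS hd t
      have h2 := hD.deg
      have h3 := hR.coord t
      have h4 := hD.mul (τ t)
      have h5 : ∑ s, cmul τ d m (τ s) = ∑ s, n' (τ s) + ∑ j, N' j * ∑ s, μ' j (τ s) := by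
        simp only [hD.mul, Finset.sum_add_distrib, Finset.mul_sum]
        congr 1
        exact Finset.sum_comm
      have h6 : ∑ j, N' j * μ j (τ t) + ∑ j, N' j * ∑ s, μ' j (τ s) =
          ∑ j, N' j * δ' j + ∑ j, N' j * μ' j (τ t) := by
        rw [← Finset.sum_add_distrib, ← Finset.sum_add_distrib]
        apply Finset.sum_congr rfl
        intro j _
        have h7 := (hRj j).coord t
        rw [← mul_add, ← mul_add, h7]
      have h8 : ∑ s, spl τ d m s * lmul τ s (τ t) + spl τ d m t = ∑ s, spl τ d m s := by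
        simp only [lmul_apply, Fin.sum_univ_three]
        fin_cases t <;> simp <;> ring
      omega
    · have h1 := hD.mul i
      rw [cmul_off hi] at h1
      have h2 : ∑ t, spl τ d m t * lmul τ t i = 0 := by
        apply Finset.sum_eq_zero
        intro t _
        rw [lmul_off t hi, mul_zero]
      rw [h1, hR.off i hi, h2, add_zero]
      congr 1
      apply Finset.sum_congr rfl
      intro j _
      rw [(hRj j).off i hi]
  · -- orth
    rintro (j | t)
    · simp only [Sum.elim_inl]
      have h1 := hR.form (hRj j)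
      have h2 := hD.orth j
      omega
    · simp only [Sum.elim_inr, mul_one]
      exact hside _ 0 _ _ _ _ hR (hz t.1 t.2).1
  · -- sys
    intro H hH
    obtain ⟨G, hG, hGe⟩ := tr_curves hP hH hS
    obtain ⟨G0, hG0, hGG⟩ := hD.sys G hG
    obtain ⟨H0, hH0, hHe⟩ := moving_tr hP hR hG0
    refine ⟨H0, hH0, ?_⟩
    have h1 := cre_prod N' (fun j t => μ' j (τ t)) F F' hFj (fun t => n' (τ t)) G0 H0 hHe
    have h2 : (fun t => n' (τ t) + ∑ j, N' j * μ' j (τ t)) = fun t => cmul τ d m (τ t) := by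
      funext t
      exact (hD.mul (τ t)).symm
    rw [h2, ← hGG] at h1
    have h3 := tr_back (mem_curves.1 hH).1 hGe h1
    rw [h3, Fintype.prod_sum_type]
    simp only [Sum.elim_inl, Sum.elim_inr]
    rw [prod_split (spl τ d m)]
    unfold spl
    ring

theorem dec_step (hP : Slice τ P) (hS : ∑ t, m (τ t) ≤ 2 * d)
    (hD : Dec (2 * d - ∑ t, m (τ t)) (cmul τ d m) (cconf τ P)) : Dec d m P := by
  by_cases hne : curves d m P = ⊥
  · exact Or.inl hne
  have hd := le_of_ne_bot hP hne
  rcases hD with hbot | ⟨κ, _, N', δ', μ', F', e', n', hdec, hnef, hvd, hfin⟩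
  · exfalso
    apply hne
    rw [Submodule.eq_bot_iff] at hbot ⊢
    intro H hH
    obtain ⟨G, hG, hGe⟩ := tr_curves hP hH hS
    have h1 := hbot G hG
    rw [h1, mul_zero] at hGe
    exact cre_injective (by rw [← hGe, map_zero])
  · have hline := fun j s => no_line hP hS hd hdec j s
    have hc := fun j => curve_tr_symm hP (hdec.curve j) (hline j)
    choose δ μ F hRj hcj hFj using hc
    obtain ⟨e, n, hR⟩ := exists_refl hP hnef
    refine Or.inr ⟨_, inferInstance, _, _, _, _, e, n,
      isDec_step hP hS hd hdec δ μ F hRj hcj hFj hR, nef_moving hP hR hnef, ?_, ?_⟩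
    · rw [hR.vd_eq]
      exact hvd
    · rw [finrank_moving hP hR, hfin, hR.vd_eq]

end Pool.Agent.Lib.MP_6b2d39_agCr
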