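import Pool.Agent.Lib.MP_6b2d39_agCr.Line

namespace Pool.Agent.Lib.MP_6b2d39_agCr

variable {h : ℕ} {τ : Fin 3 ↪ Fin h} {d : ℕ} {m : Fin h → ℕ}

/-- how often the side `X t = 0` of the fundamental triangle splits off -/
def spl (τ : Fin 3 ↪ Fin h) (d : ℕ) (m : Fin h → ℕ) (t : Fin 3) : ℕ :=
  (∑ s, m (τ s)) - m (τ t) - d

theorem cmul_tau (t : Fin 3) : cmul τ d m (τ t) = d + m (τ t) - ∑ s, m (τ s) := by
  unfold cmul
  rw [if_pos ⟨t, rfl⟩]

theorem cmul_coord (t : Fin 3) (hd : ∀ t, m (τ t) ≤ d) :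
    cmul τ d m (τ t) + ∑ s, m (τ s) = d + m (τ t) + spl τ d m t := by
  rw [cmul_tau]
  unfold spl
  have h1 : m (τ t) ≤ ∑ s, m (τ s) :=
    Finset.single_le_sum (f := fun s => m (τ s)) (fun _ _ => Nat.zero_le _) (Finset.mem_univ t)
  omega

theorem cmul_off {l : Fin h} (hl : ¬ ∃ t, τ t = l) : cmul τ d m l = m l := by
  unfold cmul
  rw [if_neg hl]

theorem cmul_eq_zero {t : Fin 3} (ht : 0 < spl τ d m t) : cmul τ d m (τ t) = 0 := by
  rw [cmul_tau]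
  unfold spl at ht
  omega

theorem step_deg (hS : ∑ t, m (τ t) ≤ 2 * d) (hd : ∀ t, m (τ t) ≤ d) :
    2 * (2 * d - ∑ t, m (τ t)) + ∑ t, spl τ d m t = d + ∑ t, cmul τ d m (τ t) := by
  have h0 := cmul_coord (τ := τ) (d := d) (m := m) 0 hd
  have h1 := cmul_coord (τ := τ) (d := d) (m := m) 1 hd
  have h2 := cmul_coord (τ := τ) (d := d) (m := m) 2 hd
  simp only [Fin.sum_univ_three] at *
  omega

theorem step_coord (hS : ∑ t, m (τ t) ≤ 2 * d) (hd : ∀ t, m (τ t) ≤ d) (t : Fin 3) :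
    (2 * d - ∑ t, m (τ t)) + cmul τ d m (τ t) + ∑ s, spl τ d m s =
      m (τ t) + ∑ s, cmul τ d m (τ s) + spl τ d m t := by
  have h0 := cmul_coord (τ := τ) (d := d) (m := m) 0 hd
  have h1 := cmul_coord (τ := τ) (d := d) (m := m) 1 hd
  have h2 := cmul_coord (τ := τ) (d := d) (m := m) 2 hd
  have h3 := cmul_coord (τ := τ) (d := d) (m := m) t hd
  simp only [Fin.sum_univ_three] at *
  omega

theorem spl_le (hS : ∑ t, m (τ t) ≤ 2 * d) (hd : ∀ t, m (τ t) ≤ d) (s : Fin 3) :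
    ∑ t, spl τ d m t ≤ m (τ s) + spl τ d m s := by
  have h0 := hd 0
  have h1 := hd 1
  have h2 := hd 2
  unfold spl
  simp only [Fin.sum_univ_three] at *
  fin_cases s <;> simp <;> omega

end Pool.Agent.Lib.MP_6b2d39_agCr
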