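import Pool.Agent.Lib.MP_6b2d39_agCr.CoordVan
import Pool.Agent.Lib.MP_6b2d39_agCr.Cre

open MvPolynomial

namespace Pool.Agent.Lib.MP_6b2d39_agCr

private theorem tr_monomial (u : Fin 3 →₀ ℕ) (c : ℂ) :
    (monomial u c : MvPolynomial (Fin 3) ℂ) = C c * mon3 u := by
  rw [MvPolynomial.monomial_eq, Finsupp.prod_fintype _ _ (fun i => pow_zero _)]
  rfl

/-- the standard quadratic transform of a form with multiplicities at least `a t` at the coordinate
points: exponents `u` become `d - a - u` -/
theorem exists_tr {d : ℕ} {a : Fin 3 → ℕ} {F : MvPolynomial (Fin 3) ℂ} (hF : F.IsHomogeneous d)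
    (ha : ∀ t, Van (a t) (Pi.single t 1) F) (hS : ∑ t, a t ≤ 2 * d) :
    ∃ G : MvPolynomial (Fin 3) ℂ, G.IsHomogeneous (2 * d - ∑ t, a t) ∧ mon3 a * G = cre F ∧
      ∀ w, w ∈ G.support ↔ ∃ u ∈ F.support, ∀ t, w t + u t + a t = d := by
  classical
  -- the exponents
  set W : (Fin 3 →₀ ℕ) → (Fin 3 →₀ ℕ) := fun u =>
    Finsupp.equivFunOnFinite.symm (fun t => d - a t - u t) with hW
  have hWt : ∀ u t, W u t = d - a t - u t := fun u t => rfl
  have hsupp : ∀ u ∈ F.support, ∀ t, u t + a t ≤ d := fun u hu t =>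
    (van_single_iff hF (a t) t).1 (ha t) u hu
  have hdeg : ∀ u ∈ F.support, u 0 + u 1 + u 2 = d := by
    intro u hu
    have h := hF (mem_support_iff.1 hu)
    rw [← h, Finsupp.weight_apply, Finsupp.sum_fintype _ _ (fun i => by simp)]
    simp [Fin.sum_univ_three]
  have hS3 : ∑ t, a t = a 0 + a 1 + a 2 := by rw [Fin.sum_univ_three]
  rw [hS3] at hS
  rw [hS3]
  have hinj : ∀ u ∈ F.support, ∀ v ∈ F.support, W u = W v → u = v := by
    intro u hu v hv huv
    ext t
    have h1 := hWt u t
    have h2 := hWt v t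
    rw [huv] at h1
    have h3 := hsupp u hu t
    have h4 := hsupp v hv t
    omega
  set G : MvPolynomial (Fin 3) ℂ := ∑ u ∈ F.support, monomial (W u) (coeff u F) with hG
  have hcoeff : ∀ w, coeff w G = ∑ u ∈ F.support, if W u = w then coeff u F else 0 := by
    intro w
    rw [hG, coeff_sum]
    refine Finset.sum_congr rfl fun u _ => ?_
    rw [coeff_monomial]
  have hWdeg : ∀ u ∈ F.support, ∀ w, W u = w ↔ ∀ t, w t + u t + a t = d := by
    intro u hu w
    constructor
    · rintro rfl t
      have h1 := hWt u t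
      have h2 := hsupp u hu t
      omega
    · intro h
      ext t
      have h1 := hWt u t
      have h2 := hsupp u hu t
      have h3 := h t
      omega
  have hsup : ∀ w, w ∈ G.support ↔ ∃ u ∈ F.support, ∀ t, w t + u t + a t = d := by
    intro w
    rw [mem_support_iff, hcoeff]
    constructor
    · intro h
      obtain ⟨u, hu, hne⟩ := Finset.exists_ne_zero_of_sum_ne_zero h
      refine ⟨u, hu, ?_⟩
      by_cases hw : W u = w
      · exact (hWdeg u hu w).1 hw
      · rw [if_neg hw] at hne
        exact absurd rfl hne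
    · rintro ⟨u, hu, huw⟩
      have hw : W u = w := (hWdeg u hu w).2 huw
      rw [Finset.sum_eq_single u]
      · rw [if_pos hw]
        exact mem_support_iff.1 hu
      · intro v hv hvu
        rw [if_neg]
        intro hvw
        exact hvu (hinj v hv u hu (hvw.trans hw.symm))
      · intro h
        exact absurd hu h
  refine ⟨G, ?_, ?_, hsup⟩
  · rw [hG]
    apply IsHomogeneous.sum
    intro u hu
    apply isHomogeneous_monomial
    have h0 := hWt u 0
    have h1 := hWt u 1
    have h2 := hWt u 2
    have k0 := hsupp u hu 0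
    have k1 := hsupp u hu 1
    have k2 := hsupp u hu 2
    have k3 := hdeg u hu
    have e : (W u).degree = W u 0 + W u 1 + W u 2 := by
      rw [Finsupp.degree_eq_sum, Fin.sum_univ_three]
    rw [e]
    omega
  · conv_rhs => rw [F.as_sum]
    rw [map_sum, hG, Finset.mul_sum]
    refine Finset.sum_congr rfl fun u hu => ?_
    rw [tr_monomial, tr_monomial, map_mul, cre_mon3]
    have e1 : cre (C (coeff u F)) = C (coeff u F) := by
      rw [← algebraMap_eq, AlgHom.commutes]
    rw [e1, mul_left_comm, mon3_mul]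
    congr 2
    funext t
    have h1 := hWt u t
    have h2 := hsupp u hu t
    have h3 := hdeg u hu
    rw [Fin.sum_univ_three]
    omega

end Pool.Agent.Lib.MP_6b2d39_agCr
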