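import Pool.Agent.Lib.MP_6b2d39_agCr.Ord
import Pool.Agent.Lib.MP_6b2d39_agCr.Tr

open MvPolynomial

namespace Pool.Agent.Lib.MP_6b2d39_agCr

variable {h : ℕ} {τ : Fin 3 ↪ Fin h} {P : Fin h → Fin 3 → ℂ} {d : ℕ} {m : Fin h → ℕ}
  {F G H : MvPolynomial (Fin 3) ℂ}

private theorem trc_eval (v : Fin 3 → ℂ) :
    (fun i => eval v (∏ s ∈ Finset.univ.erase i, (X s : MvPolynomial (Fin 3) ℂ))) = cpt v := by
  funext i
  rw [map_prod]
  simp only [eval_X]
  rfl

private theorem trc_sum {F : MvPolynomial (Fin 3) ℂ} (hF : F.IsHomogeneous d) {u : Fin 3 →₀ ℕ}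
    (hu : u ∈ F.support) : u 0 + u 1 + u 2 = d := by
  have h1 := hF (mem_support_iff.1 hu)
  have h2 : Finsupp.degree u = d := by
    rw [← h1]
    exact DFunLike.congr_fun (Finsupp.degree_eq_weight_one (R := ℕ)) u
  rw [← h2, Finsupp.degree_eq_sum, Fin.sum_univ_three]

/-- multiplicities off the triangle are not changed -/
theorem tr_van_iff {v : Fin 3 → ℂ} (hv : ∀ t, v t ≠ 0) {a : Fin 3 → ℕ} (hF : F.IsHomogeneous d)
    (hG : mon3 a * G = cre F) (n : ℕ) : Van n (cpt v) G ↔ Van n v F := by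
  have hc : ∏ t, v t ≠ 0 := Finset.prod_ne_zero_iff.2 (fun t _ => hv t)
  constructor
  · intro h
    have h1 : Van n (cpt v) (cre F) := by
      rw [← hG]
      exact van_mul_left h _
    have h2 : Van n v (cre (cre F)) := by
      have h3 := van_comp (v := v) (n := n) (F := cre F)
        (fun t => ∏ s ∈ Finset.univ.erase t, (X s : MvPolynomial (Fin 3) ℂ))
      rw [trc_eval] at h3
      exact h3 h1
    rw [cre_cre hF] at h2
    exact van_cancel (eval_mon3_ne_zero hv _) h2
  · intro h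
    have h1 : Van n (cpt (cpt v)) F := by
      rw [cpt_cpt]
      exact (van_smul hF hc).2 h
    have h2 : Van n (cpt v) (cre F) := by
      have h3 := van_comp (v := cpt v) (n := n) (F := F)
        (fun t => ∏ s ∈ Finset.univ.erase t, (X s : MvPolynomial (Fin 3) ℂ))
      rw [trc_eval] at h3
      exact h3 h1
    rw [← hG] at h2
    exact van_cancel (eval_mon3_ne_zero (fun t => cpt_ne_zero hv t) _) h2

/-- the transform of a member of `L_d(m)` is a member of the transformed system -/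
theorem tr_curves (hP : Slice τ P) (hF : F ∈ curves d m P) (hS : ∑ t, m (τ t) ≤ 2 * d) :
    ∃ G ∈ curves (2 * d - ∑ t, m (τ t)) (cmul τ d m) (cconf τ P),
      mon3 (fun t => m (τ t)) * G = cre F := by
  obtain ⟨hF1, hF2⟩ := mem_curves.1 hF
  have ha : ∀ t, Van (m (τ t)) (Pi.single t 1) F := by
    intro t
    rw [← hP.coord t]
    exact hF2 (τ t)
  obtain ⟨G, hG1, hG2, hG3⟩ := exists_tr (a := fun t => m (τ t)) hF1 ha hS
  refine ⟨G, mem_curves.2 ⟨hG1, ?_⟩, hG2⟩
  intro l
  by_cases hl : ∃ t, τ t = l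
  · have e1 : cconf τ P l = P l := by
      unfold cconf
      rw [if_pos hl]
    have e2 : cmul τ d m l = d + m l - ∑ t, m (τ t) := by
      unfold cmul
      rw [if_pos hl]
    rw [e1, e2]
    obtain ⟨t, rfl⟩ := hl
    rw [hP.coord t, van_single_iff hG1]
    intro w hw
    obtain ⟨u, hu, huw⟩ := (hG3 w).1 hw
    have h1 := trc_sum hF1 hu
    rw [Fin.sum_univ_three] at hS ⊢
    have h2 := huw 0
    have h3 := huw 1
    have h4 := huw 2
    fin_cases t <;> simp only [Fin.zero_eta, Fin.mk_one, Fin.reduceFinMk] <;> omega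
  · have e1 : cconf τ P l = cpt (P l) := by
      unfold cconf
      rw [if_neg hl]
    have e2 : cmul τ d m l = m l := by
      unfold cmul
      rw [if_neg hl]
    rw [e1, e2]
    exact (tr_van_iff (hP.off l hl) hF1 hG2 (m l)).2 (hF2 l)

/-- transforming twice: the split lines appear -/
theorem tr_back (hF : F.IsHomogeneous d) (hG : mon3 (fun t => m (τ t)) * G = cre F)
    (hH : mon3 (fun t => cmul τ d m (τ t)) * H = cre G) :
    F = mon3 (fun t => (∑ s, m (τ s)) - m (τ t) - d) * H := by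
  have h1 := congrArg cre hG
  rw [map_mul, cre_mon3, ← hH, cre_cre hF, ← mul_assoc, mon3_mul] at h1
  have h2 : (fun t => (∑ s, m (τ s)) - m (τ t) + cmul τ d m (τ t)) =
      fun t => d + ((∑ s, m (τ s)) - m (τ t) - d) := by
    funext t
    have h3 : m (τ t) ≤ ∑ s, m (τ s) :=
      Finset.single_le_sum (f := fun s => m (τ s)) (fun _ _ => Nat.zero_le _) (Finset.mem_univ t)
    have h4 : cmul τ d m (τ t) = d + m (τ t) - ∑ s, m (τ s) := by
      unfold cmul
      rw [if_pos ⟨t, rfl⟩]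
    rw [h4]
    omega
  rw [h2, ← mon3_mul (fun _ => d), mul_assoc] at h1
  exact (mul_left_cancel₀ (mon3_ne_zero _) h1).symm

private theorem trc_supp (hP : Slice τ P) (hF : F ∈ curves d m P) {u : Fin 3 →₀ ℕ}
    (hu : u ∈ F.support) (t : Fin 3) : u t + m (τ t) ≤ d := by
  obtain ⟨hF1, hF2⟩ := mem_curves.1 hF
  have h1 := hF2 (τ t)
  rw [hP.coord t, van_single_iff hF1] at h1
  exact h1 u hu

private theorem trc_exists (hne : curves d m P ≠ ⊥) : ∃ F ∈ curves d m P, ∃ u, u ∈ F.support := by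
  obtain ⟨F, hF, hF0⟩ := Submodule.exists_mem_ne_zero_of_ne_bot hne
  exact ⟨F, hF, support_nonempty.2 hF0⟩

theorem curves_eq_bot (hP : Slice τ P) (hS : 2 * d < ∑ t, m (τ t)) : curves d m P = ⊥ := by
  by_contra hne
  obtain ⟨F, hF, u, hu⟩ := trc_exists hne
  have h1 := trc_sum (mem_curves.1 hF).1 hu
  rw [Fin.sum_univ_three] at hS
  have h2 := trc_supp hP hF hu 0
  have h3 := trc_supp hP hF hu 1
  have h4 := trc_supp hP hF hu 2
  omega

theorem le_of_ne_bot (hP : Slice τ P) (hne : curves d m P ≠ ⊥) (t : Fin 3) : m (τ t) ≤ d := by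
  obtain ⟨F, hF, u, hu⟩ := trc_exists hne
  have h2 := trc_supp hP hF hu t
  omega

end Pool.Agent.Lib.MP_6b2d39_agCr
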